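import Pool.Agent.U280.LT.Law

/-!
# The Lieb-Thirring kinetic inequality for sets of angular momenta with disjoint translates

Let `d = k + 2 ≥ 2`, `ℝ^d = ℂ × ℝ^k`, and let the orthonormal functions `u_1, …, u_N` have all their
angular momenta about the axis `x = 0` in a set `Λ ⊆ ℤ`: `∫ u_n(e^{iθ} x, y) e^{-ilθ} dθ = 0` for `l ∉ Λ`.
Every `u_n` may be an arbitrary superposition of infinitely many angular momenta.

If `0 ∉ Λ` and `Λ` does not contain two consecutive integers then the kinetic inequality holds with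
the constant `(4/3)^(1/d) K_d^cl`, larger than the semiclassical constant of the conjecture. This is
the case for all systems with a non-trivial symmetry `u_n(e^{iθ} x, y) = ζ u_n(x, y)`, `e^{iθ} ≠ 1`,
`ζ ≠ 1`: for example for the functions with `u_n(-x, y) = - u_n(x, y)`. More generally, if
`|l| ≥ κ > 0` for `l ∈ Λ` and the translates `Λ + j`, `j ∈ J`, are pairwise disjoint then the constant is
`((3/4) (|J| / (1 + ∑_{j ∈ J} j² / (|J| κ²)))²)^(1/d) K_d^cl`.

Proof. The functions `e^{ijφ} u_n`, `j ∈ J`, `φ = arg x`, are orthonormal, they have the density `|J| ρ`,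
and their additional kinetic energy is `∑ j² ∫ ρ / |x|²` (and a term which is linear in `∑ j`, and which
is not positive for `J` or for `-J`). By Wirtinger's inequality on the circles `∫ ρ / |x|²` is at most
`κ⁻²` times the kinetic energy in the plane. So the multiplied system costs more kinetic energy in
the plane only, and this is exploited by applying the inequality of the starting file
`AllDimensions` after a scaling in the plane. That inequality is only used as a black box.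
-/

set_option autoImplicit false

open MeasureTheory Set

namespace Pool.Agent.U280.LT.Ang

/-- The semiclassical constant `d / (d + 2) * (2π)² / ω_d ^ (2 / d)`, `ω_d` the volume of the unit
ball. -/
noncomputable def Kcl (d : ℕ) : ℝ :=
  d / (d + 2) * ((2 * Real.pi) ^ 2 /
    (volume (Metric.ball (0 : EuclideanSpace ℝ (Fin d)) 1)).toReal ^ ((2 : ℝ) / d))

/-- The space `ℝ^(k+2) = ℂ × ℝ^k` with the Lebesgue measure. -/
abbrev Space (k : ℕ) : Type := ℂ × (Fin k → ℝ)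

/-- `|∇u|²`: the sum of the squares of the absolute values of the `k + 2` partial derivatives. -/
noncomputable def grad2 {k : ℕ} (u : Space k → ℂ) (z : Space k) : ℝ :=
  ‖fderiv ℝ u z (1, 0)‖ ^ 2 + ‖fderiv ℝ u z (Complex.I, 0)‖ ^ 2 +
    ∑ j, ‖fderiv ℝ u z (0, Pi.single j 1)‖ ^ 2

/-- An orthonormal system of functions `u_n(x, y)` on `ℂ × ℝ^k` which are continuously
differentiable at the points with `x ≠ 0` and have finite kinetic energy. -/
structure System {k N : ℕ} (u : Fin N → Space k → ℂ) : Prop where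
  smooth : ∀ n, ContDiffOn ℝ 1 (u n) {z | z.1 ≠ 0}
  square : ∀ n, Integrable (fun z => ‖u n z‖ ^ 2)
  energy : ∀ n, Integrable (grad2 (u n))
  orthonormal : ∀ n n', ∫ z, star (u n z) * u n' z = if n = n' then (1 : ℂ) else 0

/-- All angular momenta of `u` about the axis are in `Λ`. -/
def Momenta {k : ℕ} (Λ : Set ℤ) (u : Space k → ℂ) : Prop :=
  ∀ l : ℤ, l ∉ Λ → ∀ x y, x ≠ 0 →
    ∫ θ in (0 : ℝ)..(2 * Real.pi), u (Complex.exp (θ * Complex.I) * x, y) *
      Complex.exp (-(l * θ * Complex.I)) = 0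

/-- The density `ρ = ∑ |u_n|²`. -/
noncomputable def density {k N : ℕ} (u : Fin N → Space k → ℂ) (z : Space k) : ℝ :=
  ∑ n, ‖u n z‖ ^ 2

/-- The kinetic energy `∑ ∫ |∇u_n|²`. -/
noncomputable def kinetic {k N : ℕ} (u : Fin N → Space k → ℂ) : ℝ :=
  ∑ n, ∫ z, grad2 (u n) z

/-- The kinetic inequality `C^(1/d) K_d^cl ∫ ρ^(1 + 2/d) ≤ ∑ ∫ |∇u_n|²`, `d = k + 2`, with a finite
left side. -/
def Kinetic {k N : ℕ} (u : Fin N → Space k → ℂ) (C : ℝ) : Prop :=
  Integrable (fun z => density u z ^ (1 + 2 / ((k + 2 : ℕ) : ℝ))) ∧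
  C ^ (1 / ((k + 2 : ℕ) : ℝ)) * Kcl (k + 2) * ∫ z, density u z ^ (1 + 2 / ((k + 2 : ℕ) : ℝ)) ≤
    kinetic u

open Pool.Agent.U280.LT in
theorem spec_of {k : ℕ} {Λ : Set ℤ} {u : Space k → ℂ} (h : Momenta Λ u) : Spec Λ u := by
  intro l hl z hz
  have h1 := h l hl z.1 z.2 hz
  have h2 := intervalIntegral.integral_comp_mul_left (a := 0) (b := 1) (fun θ : ℝ =>
    u (Complex.exp (θ * Complex.I) * z.1, z.2) * Complex.exp (-(l * θ * Complex.I)))
    (c := 2 * Real.pi) (by positivity)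
  rw [mul_zero, mul_one, h1, smul_zero] at h2
  rw [← h2]
  unfold H171FV.c1
  refine intervalIntegral.integral_congr fun t _ => ?_
  show Complex.exp (-(2 * Real.pi * Complex.I * l * t)) * u (e t * z.1, z.2) = _
  have e1 : e t = Complex.exp (((2 * Real.pi * t : ℝ) : ℂ) * Complex.I) := by
    rw [e]; push_cast; rfl
  have e2 : Complex.exp (-(2 * Real.pi * Complex.I * l * t)) =
      Complex.exp (-(l * ((2 * Real.pi * t : ℝ) : ℂ) * Complex.I)) := by
    congr 1; push_cast; ring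
  rw [e1, e2, mul_comm]

/-- the angular momenta of the functions with a symmetry -/
theorem momenta_of {k : ℕ} {u : Space k → ℂ} {θ : ℝ} {ζ : ℂ}
    (h : ∀ x y, x ≠ 0 → u (Complex.exp (θ * Complex.I) * x, y) = ζ * u (x, y)) :
    Momenta {l : ℤ | ζ * Complex.exp (-(l * θ * Complex.I)) = 1} u := by
  intro l hl x y hx
  set G : ℝ → ℂ := fun φ => u (Complex.exp (φ * Complex.I) * x, y) *
    Complex.exp (-(l * φ * Complex.I)) with hG
  have hper : Function.Periodic G (2 * Real.pi) := by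
    intro φ
    have e1 : Complex.exp (((φ + 2 * Real.pi : ℝ) : ℂ) * Complex.I) = Complex.exp (φ * Complex.I) := by
      rw [Complex.exp_eq_exp_iff_exists_int]
      exact ⟨1, by push_cast; ring⟩
    have e2 : Complex.exp (-(l * ((φ + 2 * Real.pi : ℝ) : ℂ) * Complex.I)) =
        Complex.exp (-(l * φ * Complex.I)) := by
      rw [Complex.exp_eq_exp_iff_exists_int]
      exact ⟨-l, by push_cast; ring⟩
    simp only [hG]
    rw [e1, e2]
  have hshift : ∀ φ : ℝ, G (φ + θ) = (ζ * Complex.exp (-(l * θ * Complex.I))) * G φ := by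
    intro φ
    have e1 : Complex.exp (((φ + θ : ℝ) : ℂ) * Complex.I) * x =
        Complex.exp (θ * Complex.I) * (Complex.exp (φ * Complex.I) * x) := by
      rw [← mul_assoc, ← Complex.exp_add]
      congr 2
      push_cast; ring
    have e2 : Complex.exp (-(l * ((φ + θ : ℝ) : ℂ) * Complex.I)) =
        Complex.exp (-(l * θ * Complex.I)) * Complex.exp (-(l * φ * Complex.I)) := by
      rw [← Complex.exp_add]
      congr 1
      push_cast; ring
    simp only [hG]
    rw [e1, e2, h _ _ (mul_ne_zero (Complex.exp_ne_zero _) hx)]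
    ring
  have h1 : ∫ φ in (0 : ℝ)..(2 * Real.pi), G (φ + θ) = ∫ φ in (0 : ℝ)..(2 * Real.pi), G φ := by
    rw [intervalIntegral.integral_comp_add_right G θ, zero_add, add_comm (2 * Real.pi) θ]
    have := hper.intervalIntegral_add_eq θ 0
    rwa [zero_add] at this
  have h2 : ∫ φ in (0 : ℝ)..(2 * Real.pi), G (φ + θ) =
      (ζ * Complex.exp (-(l * θ * Complex.I))) * ∫ φ in (0 : ℝ)..(2 * Real.pi), G φ := by
    rw [← intervalIntegral.integral_const_mul]
    exact intervalIntegral.integral_congr fun φ _ => hshift φ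
  rw [h1] at h2
  have h3 : (1 - ζ * Complex.exp (-(l * θ * Complex.I))) *
      ∫ φ in (0 : ℝ)..(2 * Real.pi), G φ = 0 := by
    rw [sub_mul, one_mul, ← h2, sub_self]
  rcases mul_eq_zero.1 h3 with h4 | h4
  · exact absurd (sub_eq_zero.1 h4).symm hl
  · exact h4

/-- Let `u_1, …, u_N` be an orthonormal system on `ℂ × ℝ^k`, `d = k + 2`.
(1) If the angular momenta of all `u_n` are in `Λ`, `|l| ≥ κ > 0` for all `l ∈ Λ`, and the translates
`Λ + j`, `j ∈ J`, are pairwise disjoint, `J` a nonempty finite set of integers, then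
`C^(1/d) K_d^cl ∫ ρ^(1 + 2/d) ≤ ∑ ∫ |∇u_n|²` with `C = (3/4) (|J| / (1 + ∑_{j ∈ J} j² / (|J| κ²)))²`.
(2) If `0 ∉ Λ` and `Λ` contains no two consecutive integers, this holds with `C = 4/3`.
(3) If `u_n(e^{iθ} x, y) = ζ u_n(x, y)` for all `n`, with `e^{iθ} ≠ 1` and `ζ ≠ 1`, this holds with
`C = 4/3`. -/
theorem main (k N : ℕ) (u : Fin N → Space k → ℂ) (hu : System u) :
    (∀ (Λ : Set ℤ) (κ : ℝ) (J : Finset ℤ), 0 < κ → (∀ l ∈ Λ, κ ≤ |(l : ℝ)|) → J.Nonempty →
      (∀ i ∈ J, ∀ j ∈ J, i ≠ j → ∀ l ∈ Λ, l + i - j ∉ Λ) → (∀ n, Momenta Λ (u n)) →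
      Kinetic u (3 / 4 * ((J.card : ℝ) /
        (1 + (∑ j ∈ J, (j : ℝ) ^ 2) / (J.card * κ ^ 2))) ^ 2)) ∧
    (∀ Λ : Set ℤ, (0 : ℤ) ∉ Λ → (∀ l ∈ Λ, l + 1 ∉ Λ) → (∀ n, Momenta Λ (u n)) →
      Kinetic u (4 / 3)) ∧
    (∀ (θ : ℝ) (ζ : ℂ), Complex.exp (θ * Complex.I) ≠ 1 → ζ ≠ 1 →
      (∀ n x y, x ≠ 0 → u n (Complex.exp (θ * Complex.I) * x, y) = ζ * u n (x, y)) →
      Kinetic u (4 / 3)) := by
  have p1 : ∀ (Λ : Set ℤ) (κ : ℝ) (J : Finset ℤ), 0 < κ → (∀ l ∈ Λ, κ ≤ |(l : ℝ)|) →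
      J.Nonempty → (∀ i ∈ J, ∀ j ∈ J, i ≠ j → ∀ l ∈ Λ, l + i - j ∉ Λ) →
      (∀ n, Momenta Λ (u n)) → Kinetic u (3 / 4 * ((J.card : ℝ) /
        (1 + (∑ j ∈ J, (j : ℝ) ^ 2) / (J.card * κ ^ 2))) ^ 2) := by
    intro Λ κ J hκ hκΛ hJ hd hΛ
    have hM : (0 : ℝ) < J.card := by exact_mod_cast hJ.card_pos
    have h := Pool.Agent.U280.LT.law u hu.smooth hu.square hu.energy hu.orthonormal Λ
      (fun n => spec_of (hΛ n)) hκ hκΛ J hJ (by
        intro i hi j hj hij l
        by_contra hc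
        rw [not_or, not_not, not_not] at hc
        apply hd i hi j hj hij (l - i) hc.1
        have : l - i + i - j = l - j := by ring
        rw [this]
        exact hc.2)
    refine ⟨h.1, ?_⟩
    have hQ0 : (0 : ℝ) ≤ ∑ j ∈ J, (j : ℝ) ^ 2 := Finset.sum_nonneg fun _ _ => sq_nonneg _
    have e1 : (3 / 4 * ((J.card : ℝ) / (1 + (∑ j ∈ J, (j : ℝ) ^ 2) / (J.card * κ ^ 2))) ^ 2) ^
        (1 / ((k + 2 : ℕ) : ℝ)) = (3 / 4 : ℝ) ^ (1 / ((k + 2 : ℕ) : ℝ)) * ((J.card : ℝ) /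
        (1 + (∑ j ∈ J, (j : ℝ) ^ 2) / J.card / κ ^ 2)) ^ (2 / ((k + 2 : ℕ) : ℝ)) := by
      rw [div_div, Real.mul_rpow (by norm_num) (by positivity)]
      congr 1
      rw [← Real.rpow_natCast, ← Real.rpow_mul (by positivity)]
      congr 1
      push_cast
      ring
    show (3 / 4 * ((J.card : ℝ) / (1 + (∑ j ∈ J, (j : ℝ) ^ 2) / (J.card * κ ^ 2))) ^ 2) ^
      (1 / ((k + 2 : ℕ) : ℝ)) * Kcl (k + 2) *
        ∫ z, density u z ^ (1 + 2 / ((k + 2 : ℕ) : ℝ)) ≤ kinetic u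
    rw [e1]
    have e2 : Pool.Agent.U280.LT.KK (k + 2) * ((J.card : ℝ) /
        (1 + (∑ j ∈ J, (j : ℝ) ^ 2) / J.card / κ ^ 2)) ^ (2 / ((k + 2 : ℕ) : ℝ)) =
        (3 / 4 : ℝ) ^ (1 / ((k + 2 : ℕ) : ℝ)) * ((J.card : ℝ) /
        (1 + (∑ j ∈ J, (j : ℝ) ^ 2) / J.card / κ ^ 2)) ^ (2 / ((k + 2 : ℕ) : ℝ)) * Kcl (k + 2) := by
      unfold Pool.Agent.U280.LT.KK
      show (3 / 4 : ℝ) ^ (1 / ((k + 2 : ℕ) : ℝ)) * Kcl (k + 2) * _ = _
      ring
    rw [← e2]
    exact h.2
  have p2 : ∀ Λ : Set ℤ, (0 : ℤ) ∉ Λ → (∀ l ∈ Λ, l + 1 ∉ Λ) → (∀ n, Momenta Λ (u n)) →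
      Kinetic u (4 / 3) := by
    intro Λ h0 h1 hΛ
    have h := p1 Λ 1 {0, 1} one_pos (by
      intro l hl
      have h2 : l ≠ 0 := fun h2 => h0 (h2 ▸ hl)
      have h3 : (1 : ℤ) ≤ |l| := Int.one_le_abs h2
      exact_mod_cast h3) ⟨0, by simp⟩ (by
      intro i hi j hj hij l hl
      simp only [Finset.mem_insert, Finset.mem_singleton] at hi hj
      rcases hi with rfl | rfl <;> rcases hj with rfl | rfl
      · exact absurd rfl hij
      · intro h2
        apply h1 _ h2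
        have : l + 0 - 1 + 1 = l := by ring
        rwa [this]
      · have : l + 1 - 0 = l + 1 := by ring
        rw [this]
        exact h1 l hl
      · exact absurd rfl hij) hΛ
    have e1 : (3 / 4 * (((({0, 1} : Finset ℤ)).card : ℝ) / (1 + (∑ j ∈ ({0, 1} : Finset ℤ), (j : ℝ) ^ 2) /
        ((({0, 1} : Finset ℤ)).card * (1 : ℝ) ^ 2))) ^ 2 : ℝ) = 4 / 3 := by
      have hc : ({0, 1} : Finset ℤ).card = 2 := by decide
      rw [hc, Finset.sum_pair (by decide)]
      norm_num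
    rwa [e1] at h
  refine ⟨p1, p2, ?_⟩
  intro θ ζ hθ hζ hsym
  refine p2 {l : ℤ | ζ * Complex.exp (-(l * θ * Complex.I)) = 1} ?_ ?_ fun n => momenta_of (hsym n)
  · intro h
    apply hζ
    simpa using h
  · intro l hl hl'
    have h1 : ζ * Complex.exp (-(l * θ * Complex.I)) = 1 := hl
    have h2 : ζ * Complex.exp (-(((l + 1 : ℤ) : ℂ) * θ * Complex.I)) = 1 := hl'
    apply hθ
    have h3 : Complex.exp (-(((l + 1 : ℤ) : ℂ) * θ * Complex.I)) * Complex.exp (θ * Complex.I) =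
        Complex.exp (-(l * θ * Complex.I)) := by
      rw [← Complex.exp_add]
      congr 1
      push_cast; ring
    calc Complex.exp (θ * Complex.I) =
        (ζ * Complex.exp (-(((l + 1 : ℤ) : ℂ) * θ * Complex.I))) * Complex.exp (θ * Complex.I) := by
          rw [h2, one_mul]
      _ = ζ * Complex.exp (-(l * θ * Complex.I)) := by rw [mul_assoc, h3]
      _ = 1 := h1

end Pool.Agent.U280.LT.Ang
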