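import Pool.Agent.H171R3.FV.Par

/-! Fourier series on the circle: orthogonality of functions with disjoint spectra, and the
inequality of Wirtinger for functions without small frequencies. -/

set_option autoImplicit false

open MeasureTheory Set

namespace Pool.Agent.U280.LT

open H171FV (c1 pars1)

theorem c1_add_mul {f g : ℝ → ℂ} (hf : Continuous f) (hg : Continuous g) (a : ℂ) (n : ℤ) :
    c1 (fun t => f t + a * g t) n = c1 f n + a * c1 g n := by
  unfold c1
  have hE : Continuous fun x : ℝ => Complex.exp (-(2 * Real.pi * Complex.I * n * x)) := by fun_prop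
  have i1 : Continuous fun x : ℝ => Complex.exp (-(2 * Real.pi * Complex.I * n * x)) * f x :=
    hE.mul hf
  have i2 : Continuous fun x : ℝ =>
      a * (Complex.exp (-(2 * Real.pi * Complex.I * n * x)) * g x) :=
    continuous_const.mul (hE.mul hg)
  rw [← intervalIntegral.integral_const_mul, ← intervalIntegral.integral_add
    (i1.intervalIntegrable _ _) (i2.intervalIntegrable _ _)]
  refine intervalIntegral.integral_congr fun x _ => ?_
  ring

theorem normsq_add (z w : ℂ) : ‖z + w‖ ^ 2 = ‖z‖ ^ 2 + ‖w‖ ^ 2 + 2 * (star z * w).re := by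
  rw [Complex.sq_norm, Complex.sq_norm, Complex.sq_norm, Complex.normSq_apply,
    Complex.normSq_apply, Complex.normSq_apply]
  simp only [Complex.add_re, Complex.add_im, Complex.star_def, Complex.mul_re, Complex.conj_re,
    Complex.conj_im]
  ring

/-- functions with disjoint spectra are orthogonal -/
theorem orth {f g : ℝ → ℂ} (hf : Continuous f) (hg : Continuous g)
    (h : ∀ n, c1 f n = 0 ∨ c1 g n = 0) : ∫ t in (0 : ℝ)..1, star (f t) * g t = 0 := by
  have key : ∀ a : ℂ, ‖a‖ = 1 → (a * ∫ t in (0 : ℝ)..1, star (f t) * g t).re = 0 := by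
    intro a ha
    have h1 := pars1 f hf
    have h2 := pars1 g hg
    have h3 := pars1 (fun t => f t + a * g t) (hf.add (continuous_const.mul hg))
    have e1 : (fun n : ℤ => ‖c1 (fun t => f t + a * g t) n‖ ^ 2) =
        fun n => ‖c1 f n‖ ^ 2 + ‖c1 g n‖ ^ 2 := by
      funext n
      rw [c1_add_mul hf hg]
      rcases h n with h0 | h0
      · rw [h0, zero_add, norm_mul, ha, one_mul, norm_zero]; ring
      · rw [h0, mul_zero, add_zero, norm_zero]; ring
    rw [e1] at h3
    have e2 := h3.unique (h1.add h2)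
    have cf : Continuous fun t => ‖f t‖ ^ 2 := hf.norm.pow 2
    have cg : Continuous fun t => ‖g t‖ ^ 2 := hg.norm.pow 2
    have cm : Continuous fun t => star (f t) * g t := (continuous_star.comp hf).mul hg
    have cr : Continuous fun t => (a * (star (f t) * g t)).re :=
      Complex.continuous_re.comp (continuous_const.mul cm)
    have e3 : ∫ t in (0 : ℝ)..1, ‖f t + a * g t‖ ^ 2 = (∫ t in (0 : ℝ)..1, ‖f t‖ ^ 2) +
        (∫ t in (0 : ℝ)..1, ‖g t‖ ^ 2) + 2 * ∫ t in (0 : ℝ)..1, (a * (star (f t) * g t)).re := by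
      have c1' : Continuous fun t => ‖f t‖ ^ 2 + ‖g t‖ ^ 2 := cf.add cg
      have c2' : Continuous fun t => 2 * (a * (star (f t) * g t)).re := continuous_const.mul cr
      rw [← intervalIntegral.integral_const_mul, ← intervalIntegral.integral_add
        (cf.intervalIntegrable _ _) (cg.intervalIntegrable _ _),
        ← intervalIntegral.integral_add (c1'.intervalIntegrable _ _)
        (c2'.intervalIntegrable _ _)]
      refine intervalIntegral.integral_congr fun t _ => ?_
      show ‖f t + a * g t‖ ^ 2 = ‖f t‖ ^ 2 + ‖g t‖ ^ 2 + 2 * (a * (star (f t) * g t)).re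
      rw [normsq_add, norm_mul, ha, one_mul]
      congr 3
      ring
    have e4 : ∫ t in (0 : ℝ)..1, (a * (star (f t) * g t)).re =
        (a * ∫ t in (0 : ℝ)..1, star (f t) * g t).re := by
      rw [← intervalIntegral.integral_const_mul]
      exact Complex.reCLM.intervalIntegral_comp_comm
        ((continuous_const.mul cm).intervalIntegrable _ _)
    rw [e3, e4] at e2
    linarith
  have h1 := key 1 (by simp)
  have h2 := key Complex.I (by simp)
  rw [one_mul] at h1
  apply Complex.ext
  · simpa using h1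
  · simpa using h2

theorem c1_deriv {f f' : ℝ → ℂ} (hd : ∀ t, HasDerivAt f (f' t) t) (hc : Continuous f')
    (hp : f 1 = f 0) (n : ℤ) : c1 f' n = 2 * Real.pi * Complex.I * n * c1 f n := by
  unfold c1
  have hE : ∀ x : ℝ, HasDerivAt (fun x : ℝ => Complex.exp (-(2 * Real.pi * Complex.I * n * x)))
      (-(2 * Real.pi * Complex.I * n) * Complex.exp (-(2 * Real.pi * Complex.I * n * x))) x := by
    intro x
    have h1 : HasDerivAt (fun x : ℝ => -(2 * Real.pi * Complex.I * n * (x : ℂ)))
        (-(2 * Real.pi * Complex.I * n * 1)) x :=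
      (((hasDerivAt_id x).ofReal_comp).const_mul (2 * Real.pi * Complex.I * n : ℂ)).neg
    have h2 := h1.cexp
    refine h2.congr_deriv ?_
    ring
  have hEc : Continuous fun x : ℝ => Complex.exp (-(2 * Real.pi * Complex.I * n * x)) := by fun_prop
  have h1 := intervalIntegral.integral_mul_deriv_eq_deriv_mul (a := 0) (b := 1)
    (u := fun x : ℝ => Complex.exp (-(2 * Real.pi * Complex.I * n * x))) (v := f) (v' := f')
    (fun x _ => hE x) (fun x _ => hd x)
    ((continuous_const.mul hEc).intervalIntegrable _ _) (hc.intervalIntegrable _ _)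
  rw [h1]
  have e1 : Complex.exp (-(2 * Real.pi * Complex.I * n * ((1 : ℝ) : ℂ))) = 1 := by
    rw [Complex.exp_eq_one_iff]
    exact ⟨-n, by push_cast; ring⟩
  have e0 : Complex.exp (-(2 * Real.pi * Complex.I * n * ((0 : ℝ) : ℂ))) = 1 := by
    simp
  rw [e1, e0, hp, sub_self, zero_sub, ← intervalIntegral.integral_neg,
    ← intervalIntegral.integral_const_mul]
  refine intervalIntegral.integral_congr fun x _ => ?_
  ring

/-- the inequality of Wirtinger for functions without frequencies `|n| < κ` -/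
theorem wirt {f f' : ℝ → ℂ} (hd : ∀ t, HasDerivAt f (f' t) t) (hc : Continuous f')
    (hp : f 1 = f 0) {κ : ℝ} (hκ : 0 ≤ κ) (h : ∀ n : ℤ, |(n : ℝ)| < κ → c1 f n = 0) :
    (2 * Real.pi * κ) ^ 2 * ∫ t in (0 : ℝ)..1, ‖f t‖ ^ 2 ≤ ∫ t in (0 : ℝ)..1, ‖f' t‖ ^ 2 := by
  have hf : Continuous f := continuous_iff_continuousAt.2 fun t => (hd t).continuousAt
  have h1 := (pars1 f hf).mul_left ((2 * Real.pi * κ) ^ 2)
  have h2 := pars1 f' hc
  refine hasSum_le (f := fun n : ℤ => (2 * Real.pi * κ) ^ 2 * ‖c1 f n‖ ^ 2)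
    (g := fun n : ℤ => ‖c1 f' n‖ ^ 2) (fun n => ?_) h1 h2
  by_cases hn : |(n : ℝ)| < κ
  · show (2 * Real.pi * κ) ^ 2 * ‖c1 f n‖ ^ 2 ≤ ‖c1 f' n‖ ^ 2
    rw [h n hn, norm_zero]
    simp
  · show (2 * Real.pi * κ) ^ 2 * ‖c1 f n‖ ^ 2 ≤ ‖c1 f' n‖ ^ 2
    rw [c1_deriv hd hc hp, norm_mul, mul_pow ‖(2 * Real.pi * Complex.I * n : ℂ)‖]
    refine mul_le_mul_of_nonneg_right ?_ (sq_nonneg ‖c1 f n‖)
    have e : ‖(2 * Real.pi * Complex.I * n : ℂ)‖ = 2 * Real.pi * |(n : ℝ)| := by
      rw [norm_mul, norm_mul, norm_mul, Complex.norm_I, mul_one, Complex.norm_real,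
        Complex.norm_intCast, Real.norm_of_nonneg Real.pi_pos.le]
      simp
    rw [e]
    have hπ := Real.pi_pos
    have : κ ≤ |(n : ℝ)| := not_lt.1 hn
    gcongr

end Pool.Agent.U280.LT
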