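import Pool.Agent.U280.LT.Scale

/-! The kinetic inequality for systems whose angular momenta are in a set with disjoint translates. -/

set_option autoImplicit false

open MeasureTheory Set Filter Topology

namespace Pool.Agent.U280.LT

open H171FV (c1 pars1)
open Pool.Agent.N96.AX (gradC isOpen_SC diffC C_ae)

variable {k : ℕ}

theorem mulw_Gp_int (j : ℤ) {u : Z k → ℂ} (hu : Reg u) :
    Integrable (Gp (mulw j u)) ∧ ∫ z, Gp (mulw j u) z =
      (∫ z, Gp u z) + (j : ℝ) ^ 2 * (∫ z, ‖u z‖ ^ 2 / ‖z.1‖ ^ 2) + 2 * j * ∫ z, Cr u z := by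
  have iG := Gp_int hu.smooth hu.energy
  have iC := Cr_int hu.smooth iG hu.hardy
  have i0 : Integrable (fun z => Gp u z + (j : ℝ) ^ 2 * (‖u z‖ ^ 2 / ‖z.1‖ ^ 2)) :=
    iG.add (hu.hardy.const_mul _)
  have i1 : Integrable (fun z => Gp u z + (j : ℝ) ^ 2 * (‖u z‖ ^ 2 / ‖z.1‖ ^ 2) + 2 * j * Cr u z) :=
    i0.add (iC.const_mul _)
  have e1 : ∀ᵐ z ∂(volume : Measure (Z k)), Gp (mulw j u) z =
      Gp u z + (j : ℝ) ^ 2 * (‖u z‖ ^ 2 / ‖z.1‖ ^ 2) + 2 * j * Cr u z := by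
    filter_upwards [C_ae (k := k)] with z hz
    exact Gp_mulw j hu.smooth hz
  refine ⟨i1.congr (e1.mono fun z hz => hz.symm), ?_⟩
  rw [integral_congr_ae e1, integral_add i0 (iC.const_mul _),
    integral_add iG (hu.hardy.const_mul _), integral_const_mul, integral_const_mul]

theorem mulw_Gy (j : ℤ) {u : Z k → ℂ} (hu : Reg u) : ∀ᵐ z ∂(volume : Measure (Z k)),
    Gy (mulw j u) z = Gy u z := by
  filter_upwards [C_ae (k := k)] with z hz
  unfold Gy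
  refine Finset.sum_congr rfl fun i _ => ?_
  rw [fy_mulw j hu.smooth hz]

theorem Reg.mulw (j : ℤ) {u : Z k → ℂ} (hu : Reg u) : Reg (mulw j u) := by
  refine ⟨mulw_smooth j hu.smooth, ?_, ?_, ?_⟩
  · refine hu.sq.congr ?_
    filter_upwards [C_ae (k := k)] with z hz
    rw [norm_mulw j u hz]
  · refine ((mulw_Gp_int j hu).1.add (Gy_int hu.smooth hu.energy)).congr ?_
    filter_upwards [mulw_Gy j hu] with z hz
    show Gp (LT.mulw j u) z + Gy u z = gradC (LT.mulw j u) z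
    rw [gradC_split, hz]
  · refine hu.hardy.congr ?_
    filter_upwards [C_ae (k := k)] with z hz
    rw [norm_mulw j u hz]

theorem law {N : ℕ} (u : Fin N → Z k → ℂ) (hs : ∀ n, ContDiffOn ℝ 1 (u n) {z | z.1 ≠ 0})
    (h2 : ∀ n, Integrable (fun z => ‖u n z‖ ^ 2)) (hE : ∀ n, Integrable (gradC (u n)))
    (ho : ∀ n m, ∫ z, star (u n z) * u m z = if n = m then (1 : ℂ) else 0)
    (Λ : Set ℤ) (hΛ : ∀ n, Spec Λ (u n)) {κ : ℝ} (hκ : 0 < κ) (hκΛ : ∀ l ∈ Λ, κ ≤ |(l : ℝ)|)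
    (J : Finset ℤ) (hJ : J.Nonempty) (hd : ∀ i ∈ J, ∀ j ∈ J, i ≠ j → ∀ l : ℤ, l - i ∉ Λ ∨ l - j ∉ Λ) :
    Integrable (fun z => (∑ n, ‖u n z‖ ^ 2) ^ (1 + 2 / ((k + 2 : ℕ) : ℝ))) ∧
    KK (k + 2) * ((J.card : ℝ) / (1 + (∑ j ∈ J, (j : ℝ) ^ 2) / J.card / κ ^ 2)) ^
        (2 / ((k + 2 : ℕ) : ℝ)) *
      ∫ z, (∑ n, ‖u n z‖ ^ 2) ^ (1 + 2 / ((k + 2 : ℕ) : ℝ)) ≤ ∑ n, ∫ z, gradC (u n) z := by
  set p : ℝ := 2 / ((k + 2 : ℕ) : ℝ) with hp
  have hM : (0 : ℝ) < J.card := by exact_mod_cast hJ.card_pos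
  set M : ℝ := (J.card : ℝ) with hMdef
  set Q : ℝ := ∑ j ∈ J, (j : ℝ) ^ 2 with hQ
  have hQ0 : 0 ≤ Q := Finset.sum_nonneg fun _ _ => sq_nonneg _
  have hnull : ∀ n (l : ℤ), |(l : ℝ)| < κ → ∀ z : Z k, z.1 ≠ 0 →
      c1 (fun t => u n (rot t z)) l = 0 := fun n l hl z hz =>
    hΛ n l (fun hl' => absurd (hκΛ l hl') (not_le.2 hl)) z hz
  have hH := fun n => hardy (hs n) hκ (Gp_int (hs n) (hE n)) (hnull n)
  have hR : ∀ n, Reg (u n) := fun n => ⟨hs n, h2 n, hE n, (hH n).1⟩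
  set A : ℝ := ∑ n, ∫ z, Gp (u n) z with hA
  set B : ℝ := ∑ n, ∫ z, Gy (u n) z with hB
  set D : ℝ := ∑ n, ∫ z, ‖u n z‖ ^ 2 / ‖z.1‖ ^ 2 with hD
  set X : ℝ := ∑ n, ∫ z, Cr (u n) z with hX
  have hDA : κ ^ 2 * D ≤ A := by
    rw [hD, Finset.mul_sum]
    exact Finset.sum_le_sum fun n _ => (hH n).2
  have hD0 : 0 ≤ D := Finset.sum_nonneg fun n _ => integral_nonneg fun z => by positivity
  have hA0 : 0 ≤ A := Finset.sum_nonneg fun n _ => integral_nonneg fun z => Gp_nonneg _ _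
  have hAB : ∑ n, ∫ z, gradC (u n) z = A + B := by
    rw [hA, hB, ← Finset.sum_add_distrib]
    refine Finset.sum_congr rfl fun n _ => ?_
    rw [← integral_add (Gp_int (hs n) (hE n)) (Gy_int (hs n) (hE n))]
    rfl
  -- the choice of the sign
  obtain ⟨ε, hε, hεX⟩ : ∃ ε : ℤ, (ε = 1 ∨ ε = -1) ∧ (ε : ℝ) * ((∑ j ∈ J, (j : ℝ)) * X) ≤ 0 := by
    rcases le_total ((∑ j ∈ J, (j : ℝ)) * X) 0 with h | h
    · exact ⟨1, Or.inl rfl, by push_cast; linarith⟩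
    · exact ⟨-1, Or.inr rfl, by push_cast; linarith⟩
  have hε2 : (ε : ℝ) ^ 2 = 1 := by
    rcases hε with h | h <;> rw [h] <;> norm_num
  have hdis : ∀ i ∈ J, ∀ j ∈ J, i ≠ j → ∀ l : ℤ, l - ε * i ∉ Λ ∨ l - ε * j ∉ Λ := by
    intro i hi j hj hij l
    rcases hε with h | h
    · rw [h, one_mul, one_mul]
      exact hd i hi j hj hij l
    · rw [h]
      have h1 := hd j hj i hi (Ne.symm hij) (l + i + j)
      have e1 : l + i + j - j = l - -1 * i := by ring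
      have e2 : l + i + j - i = l - -1 * j := by ring
      rwa [e1, e2] at h1
  have hi : ∀ q : Fin N × J, Reg (mulw (ε * (q.2 : ℤ)) (u q.1)) := fun q => (hR q.1).mulw _
  have horth : ∀ q r : Fin N × J, ∫ z, star (mulw (ε * (q.2 : ℤ)) (u q.1) z) *
      mulw (ε * (r.2 : ℤ)) (u r.1) z = if q = r then (1 : ℂ) else 0 := by
    intro q r
    by_cases h : q.2 = r.2
    · rw [h, same, ho]
      by_cases h1 : q.1 = r.1
      · rw [if_pos h1, if_pos (Prod.ext h1 h)]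
      · rw [if_neg h1, if_neg fun h2 => h1 (congrArg Prod.fst h2)]
    · rw [if_neg fun h2 => h (congrArg Prod.snd h2)]
      refine ortho (hs _) (hs _) (h2 _) (h2 _) (hΛ _) (hΛ _) ?_
      exact hdis _ q.2.2 _ r.2.2 fun h3 => h (Subtype.ext h3)
  have hb0 : 0 < 1 + Q / M / κ ^ 2 := by positivity
  set b : ℝ := 1 + Q / M / κ ^ 2 with hb
  have hsq : (√(1 / b)) ^ 2 = 1 / b := Real.sq_sqrt (by positivity)
  have hmain := aniso (fun q : Fin N × J => mulw (ε * (q.2 : ℤ)) (u q.1)) hi horth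
    (s := √(1 / b)) (Real.sqrt_pos.2 (by positivity))
  rw [hsq, ← hp] at hmain
  obtain ⟨m1, m2⟩ := hmain
  -- the density
  have hρ : ∀ᵐ z ∂(volume : Measure (Z k)),
      (∑ q : Fin N × J, ‖mulw (ε * (q.2 : ℤ)) (u q.1) z‖ ^ 2) ^ (1 + p) =
      M ^ (1 + p) * (∑ n, ‖u n z‖ ^ 2) ^ (1 + p) := by
    filter_upwards [C_ae (k := k)] with z hz
    rw [← Real.mul_rpow hM.le (Finset.sum_nonneg fun _ _ => sq_nonneg _)]
    congr 1
    rw [Fintype.sum_prod_type]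
    simp only [norm_mulw _ _ hz, Finset.sum_const, Finset.card_univ, Fintype.card_coe, nsmul_eq_mul]
    rw [Finset.mul_sum]
  have hMp : (0 : ℝ) < M ^ (1 + p) := by positivity
  have hint : Integrable (fun z => (∑ n, ‖u n z‖ ^ 2) ^ (1 + p)) :=
    (integrable_const_mul_iff (IsUnit.mk0 _ hMp.ne') _).1 (m1.congr hρ)
  refine ⟨hint, ?_⟩
  rw [integral_congr_ae hρ, integral_const_mul] at m2
  -- the energies
  have hGp : ∑ q : Fin N × J, ∫ z, Gp (mulw (ε * (q.2 : ℤ)) (u q.1)) z ≤ M * (b * A) := by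
    have h3 : ∀ q : Fin N × J, ∫ z, Gp (mulw (ε * (q.2 : ℤ)) (u q.1)) z =
        (∫ z, Gp (u q.1) z) + ((q.2 : ℤ) : ℝ) ^ 2 * (∫ z, ‖u q.1 z‖ ^ 2 / ‖z.1‖ ^ 2) +
          ((q.2 : ℤ) : ℝ) * (2 * ε * ∫ z, Cr (u q.1) z) := by
      intro q
      rw [(mulw_Gp_int _ (hR q.1)).2]
      push_cast
      rw [mul_pow, hε2]
      ring
    have h4 : ∑ q : Fin N × J, ∫ z, Gp (mulw (ε * (q.2 : ℤ)) (u q.1)) z =
        M * A + Q * D + 2 * (ε * ((∑ j ∈ J, (j : ℝ)) * X)) := by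
      simp only [h3]
      rw [Fintype.sum_prod_type]
      simp only [Finset.sum_add_distrib, Finset.sum_const, Finset.card_univ, Fintype.card_coe,
        nsmul_eq_mul, ← Finset.sum_mul]
      rw [Finset.sum_coe_sort J (fun j => ((j : ℤ) : ℝ) ^ 2),
        Finset.sum_coe_sort J (fun j => ((j : ℤ) : ℝ)), ← Finset.mul_sum, ← Finset.mul_sum,
        ← Finset.mul_sum, ← Finset.mul_sum]
      rw [hQ, hA, hD, hX]
      ring
    rw [h4]
    have h5 : Q * D ≤ Q / κ ^ 2 * A := by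
      have h6 : D ≤ A / κ ^ 2 := by
        rw [le_div_iff₀ (by positivity)]
        linarith
      calc Q * D ≤ Q * (A / κ ^ 2) := by gcongr
        _ = _ := by ring
    have h7 : M * (b * A) = M * A + Q / κ ^ 2 * A := by
      rw [hb]
      field_simp
    rw [h7]
    linarith
  have hGy : ∑ q : Fin N × J, ∫ z, Gy (mulw (ε * (q.2 : ℤ)) (u q.1)) z = M * B := by
    have h3 : ∀ q : Fin N × J, ∫ z, Gy (mulw (ε * (q.2 : ℤ)) (u q.1)) z = ∫ z, Gy (u q.1) z :=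
      fun q => integral_congr_ae (mulw_Gy _ (hR q.1))
    simp only [h3]
    rw [Fintype.sum_prod_type]
    simp only [Finset.sum_const, Finset.card_univ, Fintype.card_coe, nsmul_eq_mul]
    rw [← Finset.mul_sum]
  rw [hAB]
  set I : ℝ := ∫ z, (∑ n, ‖u n z‖ ^ 2) ^ (1 + p) with hI
  have h8 : KK (k + 2) * (1 / b) ^ p * (M ^ (1 + p) * I) ≤ M * (A + B) := by
    refine m2.trans ?_
    rw [hGy]
    have h9 : 1 / b * ∑ q : Fin N × J, ∫ z, Gp (mulw (ε * (q.2 : ℤ)) (u q.1)) z ≤ M * A := by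
      calc 1 / b * ∑ q : Fin N × J, ∫ z, Gp (mulw (ε * (q.2 : ℤ)) (u q.1)) z ≤
          1 / b * (M * (b * A)) := by gcongr
        _ = M * A := by field_simp
    linarith
  have h10 : KK (k + 2) * (1 / b) ^ p * (M ^ (1 + p) * I) =
      M * (KK (k + 2) * (M / b) ^ p * I) := by
    rw [Real.rpow_add hM, Real.rpow_one, div_eq_mul_one_div M b,
      Real.mul_rpow hM.le (by positivity)]
    ring
  rw [h10] at h8
  exact le_of_mul_le_mul_left h8 hM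

end Pool.Agent.U280.LT
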