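import Pool.Agent.U280.LT.Space

/-! Multiplication by `(x / |x|) ^ j`: the gradient, the spectrum, orthogonality. -/

set_option autoImplicit false

open MeasureTheory Set Filter Topology

namespace Pool.Agent.U280.LT

open H171FV (c1 pars1)
open Pool.Agent.N96.AX (gradC isOpen_SC diffC C_ae)

variable {k : ℕ}

/-- `(x / |x|) ^ j` -/
noncomputable def w (j : ℤ) (x : ℂ) : ℂ := (x / (‖x‖ : ℂ)) ^ j

theorem base_norm {x : ℂ} (hx : x ≠ 0) : ‖x / (‖x‖ : ℂ)‖ = 1 := by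
  rw [norm_div, Complex.norm_real, norm_norm, div_self (norm_ne_zero_iff.2 hx)]

theorem base_ne {x : ℂ} (hx : x ≠ 0) : x / (‖x‖ : ℂ) ≠ 0 := by
  rw [← norm_ne_zero_iff, base_norm hx]
  exact one_ne_zero

theorem norm_w (j : ℤ) {x : ℂ} (hx : x ≠ 0) : ‖w j x‖ = 1 := by
  rw [w, norm_zpow, base_norm hx, one_zpow]

theorem w_rot (j : ℤ) (t : ℝ) (x : ℂ) : w j (e t * x) = e t ^ j * w j x := by
  rw [w, w, norm_mul, norm_e, one_mul, mul_div_assoc, mul_zpow]

theorem w_mul (j : ℤ) (x y : ℂ) : w j (x * y) = w j x * w j y := by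
  rw [w, w, w, norm_mul, Complex.ofReal_mul, mul_div_mul_comm, mul_zpow]

theorem w_exp {y : ℂ} (hy : y ≠ 0) (j : ℤ) :
    w j y = Complex.exp (j * ((Complex.log y).im * Complex.I)) := by
  have h1 : y / (‖y‖ : ℂ) = Complex.exp ((Complex.log y).im * Complex.I) := by
    have h2 : (‖y‖ : ℂ) ≠ 0 := by
      rw [Complex.ofReal_ne_zero]; exact norm_ne_zero_iff.2 hy
    rw [div_eq_iff h2, Complex.log_im, mul_comm]
    exact (Complex.norm_mul_exp_arg_mul_I y).symm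
  rw [w, h1, ← Complex.exp_int_mul]

theorem w_smooth (j : ℤ) {x : ℂ} (hx : x ≠ 0) : ContDiffAt ℝ 1 (w j) x := by
  have h2 : (‖x‖ : ℂ) ≠ 0 := by
    rw [Complex.ofReal_ne_zero]; exact norm_ne_zero_iff.2 hx
  have h1 : ContDiffAt ℝ 1 (fun x : ℂ => x / (‖x‖ : ℂ)) x := by
    have h3 : ContDiffAt ℝ 1 (fun x : ℂ => (‖x‖ : ℂ)) x :=
      Complex.ofRealCLM.contDiff.contDiffAt.comp x (contDiffAt_norm ℝ hx)
    simp only [div_eq_mul_inv]
    exact contDiffAt_id.mul (h3.inv h2)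
  unfold w
  cases j with
  | ofNat n =>
    simp only [Int.ofNat_eq_natCast, zpow_natCast]
    exact h1.pow n
  | negSucc n =>
    simp only [zpow_negSucc]
    exact (h1.pow (n + 1)).inv (pow_ne_zero _ (base_ne hx))

/-- the product -/
noncomputable def mulw (j : ℤ) (u : Z k → ℂ) (z : Z k) : ℂ := w j z.1 * u z

theorem norm_mulw (j : ℤ) (u : Z k → ℂ) {z : Z k} (hz : z.1 ≠ 0) : ‖mulw j u z‖ = ‖u z‖ := by
  rw [mulw, norm_mul, norm_w j hz, one_mul]

theorem mulw_smooth (j : ℤ) {u : Z k → ℂ} (hC : ContDiffOn ℝ 1 u {z | z.1 ≠ 0}) :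
    ContDiffOn ℝ 1 (mulw j u) {z | z.1 ≠ 0} := by
  intro z hz
  have h1 : ContDiffAt ℝ 1 (fun z : Z k => w j z.1) z :=
    (w_smooth j hz).comp z contDiffAt_fst
  exact h1.contDiffWithinAt.mul (hC z hz)

theorem w_line (j : ℤ) {x : ℂ} (hx : x ≠ 0) (h : ℂ) :
    HasDerivAt (fun s : ℝ => w j (x + s * h)) (j * (h / x).im * Complex.I * w j x) 0 := by
  have h1 : HasDerivAt (fun s : ℝ => 1 + (s : ℂ) * (h / x)) (1 * (h / x)) 0 :=
    (((hasDerivAt_id (0 : ℝ)).ofReal_comp).mul_const (h / x)).const_add 1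
  have h2 : HasDerivAt (fun s : ℝ => Complex.log (1 + (s : ℂ) * (h / x)))
      ((1 * (h / x)) / (1 + ((0 : ℝ) : ℂ) * (h / x))) 0 := by
    refine HasDerivAt.clog_real h1 ?_
    simp
  have h3 : HasDerivAt (fun s : ℝ => (Complex.log (1 + (s : ℂ) * (h / x))).im) (h / x).im 0 := by
    have h4 := (Complex.imCLM.hasFDerivAt (x := Complex.log (1 + ((0 : ℝ) : ℂ) * (h / x)))).comp_hasDerivAt (0 : ℝ) h2
    refine h4.congr_deriv ?_
    simp
  have h5 : HasDerivAt (fun s : ℝ => w j x * Complex.exp (j *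
      ((Complex.log (1 + (s : ℂ) * (h / x))).im * Complex.I)))
      (w j x * (Complex.exp (j * ((Complex.log (1 + ((0 : ℝ) : ℂ) * (h / x))).im * Complex.I)) *
        (j * ((h / x).im * Complex.I)))) 0 :=
    (((h3.ofReal_comp.mul_const Complex.I).const_mul (j : ℂ)).cexp).const_mul (w j x)
  have h6 : (fun s : ℝ => w j (x + s * h)) =ᶠ[𝓝 0] fun s : ℝ => w j x * Complex.exp (j *
      ((Complex.log (1 + (s : ℂ) * (h / x))).im * Complex.I)) := by
    have hc : ContinuousAt (fun s : ℝ => 1 + (s : ℂ) * (h / x)) 0 := h1.continuousAt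
    have hne : ∀ᶠ s : ℝ in 𝓝 0, 1 + (s : ℂ) * (h / x) ≠ 0 :=
      hc.eventually_ne (by simp)
    filter_upwards [hne] with s hs
    rw [← w_exp hs, ← w_mul]
    congr 1
    field_simp
  refine (h5.congr_of_eventuallyEq h6).congr_deriv ?_
  simp
  ring

theorem fd_mulw (j : ℤ) {u : Z k → ℂ} (hC : ContDiffOn ℝ 1 u {z | z.1 ≠ 0}) {z : Z k}
    (hz : z.1 ≠ 0) (h : Z k) : fderiv ℝ (mulw j u) z h =
      w j z.1 * (fderiv ℝ u z h + j * (h.1 / z.1).im * Complex.I * u z) := by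
  have d1 : HasFDerivAt (mulw j u) (fderiv ℝ (mulw j u) z) z :=
    (((mulw_smooth j hC).contDiffAt (isOpen_SC.mem_nhds hz)).differentiableAt (by simp)).hasFDerivAt
  have d2 : HasFDerivAt u (fderiv ℝ u z) z :=
    ((hC.contDiffAt (isOpen_SC.mem_nhds hz)).differentiableAt (by simp)).hasFDerivAt
  have hl : HasDerivAt (fun s : ℝ => z + s • h) h 0 := by
    have := ((hasDerivAt_id (0 : ℝ)).smul_const h).const_add z
    simpa using this
  have e0 : z + (0 : ℝ) • h = z := by simp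
  have d3 : HasDerivAt (fun s : ℝ => mulw j u (z + s • h)) (fderiv ℝ (mulw j u) z h) 0 := by
    exact HasFDerivAt.comp_hasDerivAt (0 : ℝ) (by rw [e0]; exact d1) hl
  have d4 : HasDerivAt (fun s : ℝ => u (z + s • h)) (fderiv ℝ u z h) 0 := by
    exact HasFDerivAt.comp_hasDerivAt (0 : ℝ) (by rw [e0]; exact d2) hl
  have d5 : HasDerivAt (fun s : ℝ => w j (z + s • h).1) (j * (h.1 / z.1).im * Complex.I * w j z.1) 0 := by
    have := w_line j hz h.1
    simpa using this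
  have d6 := d5.mul d4
  have := d3.unique d6
  rw [this]
  simp only [zero_smul, add_zero]
  ring

/-- the mixed term -/
noncomputable def Cr (u : Z k → ℂ) (z : Z k) : ℝ :=
  (1 / z.1).im * (star (fderiv ℝ u z (1, 0)) * (Complex.I * u z)).re +
    (Complex.I / z.1).im * (star (fderiv ℝ u z (Complex.I, 0)) * (Complex.I * u z)).re

theorem im_sq {x : ℂ} : (1 / x).im ^ 2 + (Complex.I / x).im ^ 2 = 1 / ‖x‖ ^ 2 := by
  have h1 : (Complex.I / x).im = (1 / x).re := by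
    rw [div_eq_mul_one_div, Complex.mul_im]
    simp
  rw [h1]
  have h2 : ‖1 / x‖ ^ 2 = (1 / x).re * (1 / x).re + (1 / x).im * (1 / x).im := by
    rw [Complex.sq_norm, Complex.normSq_apply]
  rw [norm_div, norm_one, div_pow, one_pow] at h2
  rw [h2]
  ring

theorem sq_aux (a v : ℂ) (b : ℝ) : ‖a + b * Complex.I * v‖ ^ 2 =
    ‖a‖ ^ 2 + b ^ 2 * ‖v‖ ^ 2 + 2 * (b * (star a * (Complex.I * v)).re) := by
  rw [normsq_add, norm_mul, norm_mul, Complex.norm_I, mul_one, mul_pow, Complex.norm_real,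
    Real.norm_eq_abs, sq_abs]
  congr 2
  have : star a * (b * Complex.I * v) = (b : ℂ) * (star a * (Complex.I * v)) := by ring
  rw [this, Complex.re_ofReal_mul]

theorem Gp_mulw (j : ℤ) {u : Z k → ℂ} (hC : ContDiffOn ℝ 1 u {z | z.1 ≠ 0}) {z : Z k}
    (hz : z.1 ≠ 0) : Gp (mulw j u) z =
      Gp u z + (j : ℝ) ^ 2 * (‖u z‖ ^ 2 / ‖z.1‖ ^ 2) + 2 * j * Cr u z := by
  have key : ∀ h : ℂ, ‖fderiv ℝ (mulw j u) z (h, 0)‖ ^ 2 = ‖fderiv ℝ u z (h, 0)‖ ^ 2 +
      ((j : ℝ) * (h / z.1).im) ^ 2 * ‖u z‖ ^ 2 + 2 * ((j : ℝ) * (h / z.1).im *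
        (star (fderiv ℝ u z (h, 0)) * (Complex.I * u z)).re) := by
    intro h
    rw [fd_mulw j hC hz, norm_mul, norm_w j hz, one_mul, ← sq_aux]
    push_cast
    rfl
  unfold Gp Cr
  rw [key, key]
  have h3 := im_sq (x := z.1)
  have h4 : ‖u z‖ ^ 2 / ‖z.1‖ ^ 2 = ((1 / z.1).im ^ 2 + (Complex.I / z.1).im ^ 2) * ‖u z‖ ^ 2 := by
    rw [h3]; ring
  rw [h4]
  ring

theorem fy_mulw (j : ℤ) {u : Z k → ℂ} (hC : ContDiffOn ℝ 1 u {z | z.1 ≠ 0}) {z : Z k}
    (hz : z.1 ≠ 0) (η : Fin k → ℝ) : ‖fderiv ℝ (mulw j u) z (0, η)‖ = ‖fderiv ℝ u z (0, η)‖ := by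
  rw [fd_mulw j hC hz, norm_mul, norm_w j hz, one_mul]
  simp

theorem Cr_bound (u : Z k → ℂ) (z : Z k) :
    |Cr u z| ≤ 1 / 2 * (Gp u z + ‖u z‖ ^ 2 / ‖z.1‖ ^ 2) := by
  have h3 := im_sq (x := z.1)
  have h4 : ‖u z‖ ^ 2 / ‖z.1‖ ^ 2 = ((1 / z.1).im ^ 2 + (Complex.I / z.1).im ^ 2) * ‖u z‖ ^ 2 := by
    rw [h3]; ring
  have key : ∀ a v : ℂ, |(star a * (Complex.I * v)).re| ≤ ‖a‖ * ‖v‖ := by
    intro a v
    refine (Complex.abs_re_le_norm _).trans ?_
    rw [norm_mul, norm_mul, Complex.norm_I, one_mul, norm_star]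
  rw [h4]
  unfold Cr Gp
  have k1 := key (fderiv ℝ u z (1, 0)) (u z)
  have k2 := key (fderiv ℝ u z (Complex.I, 0)) (u z)
  set p := (1 / z.1).im
  set q := (Complex.I / z.1).im
  set A := (star (fderiv ℝ u z (1, 0)) * (Complex.I * u z)).re
  set B := (star (fderiv ℝ u z (Complex.I, 0)) * (Complex.I * u z)).re
  set a := ‖fderiv ℝ u z (1, 0)‖
  set b := ‖fderiv ℝ u z (Complex.I, 0)‖
  set n := ‖u z‖
  have hA : |p * A| ≤ |p| * (a * n) := by
    rw [abs_mul]; exact mul_le_mul_of_nonneg_left k1 (abs_nonneg _)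
  have hB : |q * B| ≤ |q| * (b * n) := by
    rw [abs_mul]; exact mul_le_mul_of_nonneg_left k2 (abs_nonneg _)
  have h5 : |p * A + q * B| ≤ |p| * (a * n) + |q| * (b * n) :=
    (abs_add_le _ _).trans (add_le_add hA hB)
  have h6 : |p| ^ 2 = p ^ 2 := sq_abs p
  have h7 : |q| ^ 2 = q ^ 2 := sq_abs q
  nlinarith [sq_nonneg (a - |p| * n), sq_nonneg (b - |q| * n)]

theorem Cr_cont {u : Z k → ℂ} (hC : ContDiffOn ℝ 1 u {z | z.1 ≠ 0}) :
    ContinuousOn (Cr u) {z | z.1 ≠ 0} := by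
  have hf : ContinuousOn (fun z : Z k => z.1) {z | z.1 ≠ 0} := continuous_fst.continuousOn
  have h1 : ContinuousOn (fun z : Z k => (1 / z.1).im) {z | z.1 ≠ 0} :=
    Complex.continuous_im.comp_continuousOn (continuousOn_const.div hf fun z hz => hz)
  have h2 : ContinuousOn (fun z : Z k => (Complex.I / z.1).im) {z | z.1 ≠ 0} :=
    Complex.continuous_im.comp_continuousOn (continuousOn_const.div hf fun z hz => hz)
  have h3 : ∀ h : Z k, ContinuousOn
      (fun z : Z k => (star (fderiv ℝ u z h) * (Complex.I * u z)).re) {z | z.1 ≠ 0} := fun h =>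
    Complex.continuous_re.comp_continuousOn (((continuous_star.comp_continuousOn
      (fd_app hC h))).mul (continuousOn_const.mul hC.continuousOn))
  exact (h1.mul (h3 _)).add (h2.mul (h3 _))

theorem Cr_int {u : Z k → ℂ} (hC : ContDiffOn ℝ 1 u {z | z.1 ≠ 0}) (hG : Integrable (Gp u))
    (hH : Integrable (fun z => ‖u z‖ ^ 2 / ‖z.1‖ ^ 2)) : Integrable (Cr u) := by
  refine Integrable.mono' ((hG.add hH).const_mul (1 / 2)) (meas (Cr_cont hC)) ?_
  exact Eventually.of_forall fun z => Cr_bound u z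

/-- the spectrum is in `Λ` -/
def Spec (Λ : Set ℤ) (u : Z k → ℂ) : Prop :=
  ∀ l : ℤ, l ∉ Λ → ∀ z : Z k, z.1 ≠ 0 → c1 (fun t => u (rot t z)) l = 0

theorem e_zpow (t : ℝ) (j : ℤ) : e t ^ j = Complex.exp (2 * Real.pi * Complex.I * j * t) := by
  rw [e, ← Complex.exp_int_mul]
  congr 1
  ring

theorem c1_mulw (j l : ℤ) (u : Z k → ℂ) (z : Z k) :
    c1 (fun t => mulw j u (rot t z)) l = w j z.1 * c1 (fun t => u (rot t z)) (l - j) := by
  unfold c1
  rw [← intervalIntegral.integral_const_mul]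
  refine intervalIntegral.integral_congr fun t _ => ?_
  show Complex.exp (-(2 * Real.pi * Complex.I * l * t)) * (w j (e t * z.1) * u (rot t z)) =
    w j z.1 * (Complex.exp (-(2 * Real.pi * Complex.I * ((l - j : ℤ) : ℂ) * t)) * u (rot t z))
  rw [w_rot, e_zpow]
  have h1 : Complex.exp (-(2 * Real.pi * Complex.I * ((l - j : ℤ) : ℂ) * t)) =
      Complex.exp (-(2 * Real.pi * Complex.I * l * t)) *
        Complex.exp (2 * Real.pi * Complex.I * j * t) := by
    rw [← Complex.exp_add]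
    congr 1
    push_cast
    ring
  rw [h1]
  ring

theorem ortho {Λ : Set ℤ} {u v : Z k → ℂ} (hu : ContDiffOn ℝ 1 u {z | z.1 ≠ 0})
    (hv : ContDiffOn ℝ 1 v {z | z.1 ≠ 0}) (iu : Integrable (fun z => ‖u z‖ ^ 2))
    (iv : Integrable (fun z => ‖v z‖ ^ 2)) (su : Spec Λ u) (sv : Spec Λ v) {i j : ℤ}
    (hd : ∀ l : ℤ, l - i ∉ Λ ∨ l - j ∉ Λ) : ∫ z, star (mulw i u z) * mulw j v z = 0 := by
  have cu := (mulw_smooth i hu).continuousOn
  have cv := (mulw_smooth j hv).continuousOn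
  have cm : ContinuousOn (fun z => star (mulw i u z) * mulw j v z) {z | z.1 ≠ 0} :=
    (continuous_star.comp_continuousOn cu).mul cv
  have hint : Integrable (fun z => star (mulw i u z) * mulw j v z) := by
    refine Integrable.mono' ((iu.add iv).const_mul (1 / 2)) (meas cm) ?_
    filter_upwards [C_ae (k := k)] with z hz
    rw [norm_mul, norm_star, norm_mulw i u hz, norm_mulw j v hz]
    show ‖u z‖ * ‖v z‖ ≤ 1 / 2 * (‖u z‖ ^ 2 + ‖v z‖ ^ 2)
    nlinarith [sq_nonneg (‖u z‖ - ‖v z‖)]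
  rw [avg_int hint]
  have h0 : ∀ᵐ z ∂(volume : Measure (Z k)),
      ∫ t, star (mulw i u (rot t z)) * mulw j v (rot t z) ∂μI = 0 := by
    filter_upwards [C_ae (k := k)] with z hz
    have hm : ∀ t, rot t z ∈ {z : Z k | z.1 ≠ 0} := fun t => rot_ne hz t
    rw [μI, ← intervalIntegral.integral_of_le zero_le_one]
    refine orth (cu.comp_continuous (rot_cont' z) hm) (cv.comp_continuous (rot_cont' z) hm) ?_
    intro l
    rcases hd l with h | h
    · left
      rw [c1_mulw, su _ h z hz, mul_zero]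
    · right
      rw [c1_mulw, sv _ h z hz, mul_zero]
  rw [integral_congr_ae h0]
  simp

theorem same (j : ℤ) (u v : Z k → ℂ) :
    ∫ z, star (mulw j u z) * mulw j v z = ∫ z, star (u z) * v z := by
  refine integral_congr_ae ?_
  filter_upwards [C_ae (k := k)] with z hz
  have h1 : star (w j z.1) * w j z.1 = 1 := by
    have := Complex.conj_mul' (w j z.1)
    rw [norm_w j hz] at this
    simpa using this
  show star (w j z.1 * u z) * (w j z.1 * v z) = star (u z) * v z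
  rw [star_mul]
  calc star (u z) * star (w j z.1) * (w j z.1 * v z) =
      (star (w j z.1) * w j z.1) * (star (u z) * v z) := by ring
    _ = _ := by rw [h1, one_mul]

end Pool.Agent.U280.LT
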