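import Pool.Agent.U280.LT.Weak
import Pool.Agent.Helper717.LT.P_final_thm

/-! The kinetic inequality on `ℂ × ℝ^k` for regular functions, and its anisotropic form. -/

set_option autoImplicit false

open MeasureTheory Set Filter Topology

namespace Pool.Agent.U280.LT

open H171FV (c1 pars1)
open Pool.Agent.N96.AX (gradC isOpen_SC diffC C_ae)
open LTd (pd WGradC)

variable {k : ℕ}

theorem Ph_me (k : ℕ) : MeasurableEmbedding (Ph k) := by
  have h : LinearMap.ker (PhL k) = ⊥ := by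
    rw [LinearMap.ker_eq_bot']
    intro p hp
    have h1 : (⟨p 0, p 1⟩ : ℂ) = 0 := congrArg Prod.fst hp
    have h2 : (fun j : Fin k => p j.succ.succ) = 0 := congrArg Prod.snd hp
    funext i
    refine Fin.cases ?_ (fun i => Fin.cases ?_ (fun j => ?_) i) i
    · exact congrArg Complex.re h1
    · exact congrArg Complex.im h1
    · exact congrFun h2 j
  exact (LinearMap.isClosedEmbedding_of_injective h).measurableEmbedding

/-- the constant of the starting theorem -/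
noncomputable def KK (d : ℕ) : ℝ := (3 / 4 : ℝ) ^ (1 / (d : ℝ)) * LTd.Kcl d

theorem base {ι : Type} [Fintype ι] [DecidableEq ι] (v : ι → Z k → ℂ) (hv : ∀ i, Reg (v i))
    (ho : ∀ i j, ∫ z, star (v i z) * v j z = if i = j then (1 : ℂ) else 0) :
    Integrable (fun z => (∑ i, ‖v i z‖ ^ 2) ^ (1 + 2 / ((k + 2 : ℕ) : ℝ))) ∧
    KK (k + 2) * ∫ z, (∑ i, ‖v i z‖ ^ 2) ^ (1 + 2 / ((k + 2 : ℕ) : ℝ)) ≤ ∑ i, ∫ z, gradC (v i) z := by
  let σ := Fintype.equivFin ι
  have h := LTd.final_thm (k + 2) (by omega) (Fintype.card ι) (fun i p => v (σ.symm i) (Ph k p))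
    (fun i j p => fderiv ℝ (v (σ.symm i)) (Ph k p) (Ph k (Pi.single j 1)))
    (fun i => (hv (σ.symm i)).wgrad) (by
      intro i j
      have h1 := (Ph_mp k).integral_comp (Ph_me k) (fun z => star (v (σ.symm i) z) * v (σ.symm j) z)
      rw [ho] at h1
      simp only [EmbeddingLike.apply_eq_iff_eq] at h1
      exact h1)
  have hs : ∀ z, ∑ i : Fin (Fintype.card ι), ‖v (σ.symm i) z‖ ^ 2 = ∑ i, ‖v i z‖ ^ 2 := fun z =>
    Equiv.sum_comp σ.symm (fun i => ‖v i z‖ ^ 2)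
  simp only [hs] at h
  obtain ⟨h1, h2⟩ := h
  have e1 := (Ph_mp k).integral_comp (Ph_me k)
    (fun z => (∑ i, ‖v i z‖ ^ 2) ^ (1 + 2 / ((k + 2 : ℕ) : ℝ)))
  have e2 := (Ph_mp k).integrable_comp_emb (Ph_me k)
    (g := fun z => (∑ i, ‖v i z‖ ^ 2) ^ (1 + 2 / ((k + 2 : ℕ) : ℝ)))
  refine ⟨e2.1 h1, ?_⟩
  rw [e1] at h2
  refine h2.trans_eq ?_
  have e3 : ∀ i : Fin (Fintype.card ι), (∑ j : Fin (k + 2),
      ∫ p, ‖fderiv ℝ (v (σ.symm i)) (Ph k p) (Ph k (Pi.single j 1))‖ ^ 2) =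
      ∫ z, gradC (v (σ.symm i)) z := by
    intro i
    have hi : ∀ j, Integrable (fun z => ‖fderiv ℝ (v (σ.symm i)) z (Ph k (Pi.single j 1))‖ ^ 2) :=
      fun j => dir_int (hv _) _ fun z => gradC_dir _ z j
    have h3 : ∀ j : Fin (k + 2),
        ∫ p, ‖fderiv ℝ (v (σ.symm i)) (Ph k p) (Ph k (Pi.single j 1))‖ ^ 2 =
        ∫ z, ‖fderiv ℝ (v (σ.symm i)) z (Ph k (Pi.single j 1))‖ ^ 2 := fun j =>
      (Ph_mp k).integral_comp (Ph_me k)
        (fun z => ‖fderiv ℝ (v (σ.symm i)) z (Ph k (Pi.single j 1))‖ ^ 2)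
    simp only [h3]
    rw [← integral_finsetSum _ fun j _ => hi j]
    simp only [gradC_sum]
  simp only [e3]
  exact Equiv.sum_comp σ.symm (fun i => ∫ z, gradC (v i) z)

/-- `∑ |∂_j u|²` over the directions along the axis -/
noncomputable def Gy (u : Z k → ℂ) (z : Z k) : ℝ := ∑ j, ‖fderiv ℝ u z (0, Pi.single j 1)‖ ^ 2

theorem gradC_split (u : Z k → ℂ) (z : Z k) : gradC u z = Gp u z + Gy u z := rfl

theorem Gy_nonneg (u : Z k → ℂ) (z : Z k) : 0 ≤ Gy u z := Finset.sum_nonneg fun _ _ => sq_nonneg _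

theorem Gy_cont {u : Z k → ℂ} (hC : ContDiffOn ℝ 1 u {z | z.1 ≠ 0}) :
    ContinuousOn (Gy u) {z | z.1 ≠ 0} :=
  continuousOn_finsetSum _ fun _ _ => (fd_app hC _).norm.pow 2

theorem Gp_int {u : Z k → ℂ} (hC : ContDiffOn ℝ 1 u {z | z.1 ≠ 0}) (hE : Integrable (gradC u)) :
    Integrable (Gp u) :=
  Integrable.mono' hE (meas (Gp_cont hC)) (Eventually.of_forall fun z => by
    rw [Real.norm_of_nonneg (Gp_nonneg u z), gradC_split]
    linarith [Gy_nonneg u z])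

theorem Gy_int {u : Z k → ℂ} (hC : ContDiffOn ℝ 1 u {z | z.1 ≠ 0}) (hE : Integrable (gradC u)) :
    Integrable (Gy u) :=
  Integrable.mono' hE (meas (Gy_cont hC)) (Eventually.of_forall fun z => by
    rw [Real.norm_of_nonneg (Gy_nonneg u z), gradC_split]
    linarith [Gp_nonneg u z])

/-- scaling in the plane -/
noncomputable def S (s : ℝ) : Z k →L[ℝ] Z k :=
  (s • ContinuousLinearMap.fst ℝ ℂ (Fin k → ℝ)).prod (ContinuousLinearMap.snd ℝ ℂ (Fin k → ℝ))

theorem S_apply (s : ℝ) (z : Z k) : S s z = (s • z.1, z.2) := rfl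

theorem S_me {s : ℝ} (hs : s ≠ 0) : MeasurableEmbedding (S (k := k) s) :=
  ((Homeomorph.smulOfNeZero s hs).prodCongr (Homeomorph.refl (Fin k → ℝ))).measurableEmbedding

theorem S_map {s : ℝ} (hs : s ≠ 0) : Measure.map (S (k := k) s) volume =
    ENNReal.ofReal ((s ^ 2)⁻¹) • (volume : Measure (Z k)) := by
  have h1 := Measure.map_addHaar_smul (volume : Measure ℂ) hs
  rw [Complex.finrank_real_complex, abs_of_nonneg (by positivity)] at h1
  have h2 := Measure.map_prod_map (volume : Measure ℂ) (volume : Measure (Fin k → ℝ))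
    (f := fun x : ℂ => s • x) (g := id) (measurable_const_smul s) measurable_id
  rw [Measure.map_id, h1, Measure.prod_smul_left] at h2
  rw [Measure.volume_eq_prod, h2]
  rfl

theorem S_integral {V : Type} [NormedAddCommGroup V] [NormedSpace ℝ V] {s : ℝ} (hs : s ≠ 0)
    (F : Z k → V) : ∫ z, F (S s z) = (s ^ 2)⁻¹ • ∫ z, F z := by
  rw [← (S_me hs).integral_map, S_map hs, integral_smul_measure,
    ENNReal.toReal_ofReal (by positivity)]

theorem S_integrable {V : Type} [NormedAddCommGroup V] {s : ℝ} (hs : s ≠ 0)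
    {F : Z k → V} (hF : Integrable F) : Integrable (fun z => F (S s z)) := by
  have h1 : Integrable F (Measure.map (S (k := k) s) volume) := by
    rw [S_map hs]
    exact hF.smul_measure ENNReal.ofReal_ne_top
  exact ((S_me hs).integrable_map_iff).1 h1

theorem S_integrable' {V : Type} [NormedAddCommGroup V] {s : ℝ} (hs : s ≠ 0)
    {F : Z k → V} (hF : Integrable (fun z => F (S s z))) : Integrable F := by
  have h1 : Integrable F (Measure.map (S (k := k) s) volume) := ((S_me hs).integrable_map_iff).2 hF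
  rw [S_map hs] at h1
  have hpos : ENNReal.ofReal ((s ^ 2)⁻¹) ≠ 0 := by
    rw [Ne, ENNReal.ofReal_eq_zero, not_le]
    positivity
  exact (integrable_smul_measure hpos ENNReal.ofReal_ne_top).1 h1

/-- the scaled function -/
noncomputable def sc (s : ℝ) (v : Z k → ℂ) (z : Z k) : ℂ := s • v (S s z)

theorem S_ne {s : ℝ} (hs : s ≠ 0) {z : Z k} (hz : z.1 ≠ 0) : (S s z).1 ≠ 0 := smul_ne_zero hs hz

theorem sc_smooth {s : ℝ} (hs : s ≠ 0) {v : Z k → ℂ} (hC : ContDiffOn ℝ 1 v {z | z.1 ≠ 0}) :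
    ContDiffOn ℝ 1 (sc s v) {z | z.1 ≠ 0} := by
  have h1 : ContDiffOn ℝ 1 (fun z => v (S s z)) {z : Z k | z.1 ≠ 0} :=
    hC.comp (S s).contDiff.contDiffOn fun z hz => S_ne hs hz
  exact h1.const_smul s

theorem sc_fd {s : ℝ} (hs : s ≠ 0) {v : Z k → ℂ} (hC : ContDiffOn ℝ 1 v {z | z.1 ≠ 0}) {z : Z k}
    (hz : z.1 ≠ 0) (h : Z k) : fderiv ℝ (sc s v) z h = s • fderiv ℝ v (S s z) (S s h) := by
  have d1 : HasFDerivAt v (fderiv ℝ v (S s z)) (S s z) :=
    ((hC.contDiffAt (isOpen_SC.mem_nhds (S_ne hs hz))).differentiableAt (by simp)).hasFDerivAt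
  have d2 : HasFDerivAt (sc s v) (s • (fderiv ℝ v (S s z)).comp (S s)) z :=
    (d1.comp z (S s).hasFDerivAt).const_smul s
  rw [d2.fderiv]
  rfl

theorem sc_Gp {s : ℝ} (hs : s ≠ 0) {v : Z k → ℂ} (hC : ContDiffOn ℝ 1 v {z | z.1 ≠ 0}) {z : Z k}
    (hz : z.1 ≠ 0) : Gp (sc s v) z = s ^ 4 * Gp v (S s z) := by
  have key : ∀ h : ℂ, fderiv ℝ (sc s v) z (h, 0) = (s * s) • fderiv ℝ v (S s z) (h, 0) := by
    intro h
    have : S s ((h, 0) : Z k) = s • ((h, 0) : Z k) := by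
      rw [S_apply]; simp
    rw [sc_fd hs hC hz, this, map_smul, smul_smul]
  unfold Gp
  rw [key, key, norm_smul, norm_smul, mul_pow, mul_pow, Real.norm_eq_abs, sq_abs]
  ring

theorem sc_Gy {s : ℝ} (hs : s ≠ 0) {v : Z k → ℂ} (hC : ContDiffOn ℝ 1 v {z | z.1 ≠ 0}) {z : Z k}
    (hz : z.1 ≠ 0) : Gy (sc s v) z = s ^ 2 * Gy v (S s z) := by
  unfold Gy
  rw [Finset.mul_sum]
  refine Finset.sum_congr rfl fun j _ => ?_
  have : S s ((0, Pi.single j 1) : Z k) = (0, Pi.single j 1) := by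
    rw [S_apply]; simp
  rw [sc_fd hs hC hz, this, norm_smul, mul_pow, Real.norm_eq_abs, sq_abs]

theorem sc_norm (s : ℝ) (v : Z k → ℂ) (z : Z k) : ‖sc s v z‖ ^ 2 = s ^ 2 * ‖v (S s z)‖ ^ 2 := by
  rw [sc, norm_smul, mul_pow, Real.norm_eq_abs, sq_abs]

theorem Reg.scaled {s : ℝ} (hs : s ≠ 0) {v : Z k → ℂ} (hv : Reg v) : Reg (sc s v) := by
  refine ⟨sc_smooth hs hv.smooth, ?_, ?_, ?_⟩
  · simp only [sc_norm]
    exact (S_integrable hs hv.sq).const_mul _
  · have h1 := (S_integrable hs (Gp_int hv.smooth hv.energy)).const_mul (s ^ 4)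
    have h2 := (S_integrable hs (Gy_int hv.smooth hv.energy)).const_mul (s ^ 2)
    refine (h1.add h2).congr ?_
    filter_upwards [C_ae (k := k)] with z hz
    rw [gradC_split, sc_Gp hs hv.smooth hz, sc_Gy hs hv.smooth hz]
    rfl
  · have h1 := (S_integrable hs hv.hardy).const_mul (s ^ 4)
    refine h1.congr (Eventually.of_forall fun z => ?_)
    show s ^ 4 * (‖v (S s z)‖ ^ 2 / ‖(S s z).1‖ ^ 2) = ‖sc s v z‖ ^ 2 / ‖z.1‖ ^ 2
    rw [sc_norm, S_apply, norm_smul, mul_pow, Real.norm_eq_abs, sq_abs]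
    field_simp

/-- the anisotropic kinetic inequality -/
theorem aniso {ι : Type} [Fintype ι] [DecidableEq ι] (v : ι → Z k → ℂ) (hv : ∀ i, Reg (v i))
    (ho : ∀ i j, ∫ z, star (v i z) * v j z = if i = j then (1 : ℂ) else 0) {s : ℝ} (hs : 0 < s) :
    Integrable (fun z => (∑ i, ‖v i z‖ ^ 2) ^ (1 + 2 / ((k + 2 : ℕ) : ℝ))) ∧
    KK (k + 2) * (s ^ 2) ^ (2 / ((k + 2 : ℕ) : ℝ)) *
      ∫ z, (∑ i, ‖v i z‖ ^ 2) ^ (1 + 2 / ((k + 2 : ℕ) : ℝ)) ≤
      s ^ 2 * (∑ i, ∫ z, Gp (v i) z) + ∑ i, ∫ z, Gy (v i) z := by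
  have hs0 : s ≠ 0 := hs.ne'
  set p : ℝ := 2 / ((k + 2 : ℕ) : ℝ) with hp
  have hs2 : (0 : ℝ) < s ^ 2 := by positivity
  have h := base (fun i => sc s (v i)) (fun i => (hv i).scaled hs0) (by
    intro i j
    have h1 : ∀ z, star (sc s (v i) z) * sc s (v j) z =
        (s ^ 2) • (fun z => star (v i z) * v j z) (S s z) := by
      intro z
      simp only [sc, Complex.real_smul, star_mul, Complex.star_def, Complex.conj_ofReal]
      push_cast
      ring
    simp only [h1]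
    rw [integral_smul, S_integral hs0 (fun z => star (v i z) * v j z), smul_smul,
      mul_inv_cancel₀ hs2.ne', one_smul, ho])
  obtain ⟨h1, h2⟩ := h
  rw [← hp] at h1 h2
  have hρ : ∀ z, (∑ i, ‖sc s (v i) z‖ ^ 2) ^ (1 + p) =
      (s ^ 2) ^ (1 + p) * (fun z => (∑ i, ‖v i z‖ ^ 2) ^ (1 + p)) (S s z) := by
    intro z
    simp only [sc_norm, ← Finset.mul_sum]
    rw [Real.mul_rpow hs2.le (Finset.sum_nonneg fun _ _ => sq_nonneg _)]
  simp only [hρ] at h1 h2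
  have hpos : (0 : ℝ) < (s ^ 2) ^ (1 + p) := by positivity
  have h3 : Integrable (fun z => (∑ i, ‖v i z‖ ^ 2) ^ (1 + p)) :=
    S_integrable' hs0 ((integrable_const_mul_iff (IsUnit.mk0 _ hpos.ne') _).1 h1)
  refine ⟨h3, ?_⟩
  rw [integral_const_mul, S_integral hs0 (fun z => (∑ i, ‖v i z‖ ^ 2) ^ (1 + p)),
    smul_eq_mul] at h2
  have e1 : (s ^ 2) ^ (1 + p) * ((s ^ 2)⁻¹ * ∫ z, (∑ i, ‖v i z‖ ^ 2) ^ (1 + p)) =
      (s ^ 2) ^ p * ∫ z, (∑ i, ‖v i z‖ ^ 2) ^ (1 + p) := by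
    rw [Real.rpow_add hs2, Real.rpow_one]
    field_simp
  rw [e1, ← mul_assoc] at h2
  refine h2.trans_eq ?_
  have e2 : ∀ i, ∫ z, gradC (sc s (v i)) z = s ^ 2 * (∫ z, Gp (v i) z) + ∫ z, Gy (v i) z := by
    intro i
    have h5 : ∫ z, gradC (sc s (v i)) z =
        ∫ z, (s ^ 4 * Gp (v i) (S s z) + s ^ 2 * Gy (v i) (S s z)) := by
      refine integral_congr_ae ?_
      filter_upwards [C_ae (k := k)] with z hz
      rw [gradC_split, sc_Gp hs0 (hv i).smooth hz, sc_Gy hs0 (hv i).smooth hz]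
    rw [h5, integral_add ((S_integrable hs0 (Gp_int (hv i).smooth (hv i).energy)).const_mul _)
      ((S_integrable hs0 (Gy_int (hv i).smooth (hv i).energy)).const_mul _), integral_const_mul,
      integral_const_mul, S_integral hs0 (Gp (v i)), S_integral hs0 (Gy (v i)), smul_eq_mul,
      smul_eq_mul]
    field_simp
  simp only [e2]
  rw [Finset.sum_add_distrib, Finset.mul_sum]

end Pool.Agent.U280.LT
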