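import Pool.Agent.N96.AX.E
import Pool.Agent.U280.LT.Four

/-! Rotations of `ℂ × ℝ^k` about the axis, averages over the circles, and the Hardy inequality for
functions without small angular momenta. -/

set_option autoImplicit false

open MeasureTheory Set Filter Topology

namespace Pool.Agent.U280.LT

open H171FV (c1 pars1)
open Pool.Agent.N96.AX (gradC isOpen_SC diffC C_ae)

/-- the space -/
abbrev Z (k : ℕ) : Type := ℂ × (Fin k → ℝ)

variable {k : ℕ}

/-- `exp (2 π i t)` -/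
noncomputable def e (t : ℝ) : ℂ := Complex.exp (2 * Real.pi * t * Complex.I)

theorem norm_e (t : ℝ) : ‖e t‖ = 1 := by
  have h : (2 * Real.pi * t * Complex.I : ℂ) = ((2 * Real.pi * t : ℝ) : ℂ) * Complex.I := by
    push_cast; ring
  rw [e, h, Complex.norm_exp_ofReal_mul_I]

theorem e_ne (t : ℝ) : e t ≠ 0 := Complex.exp_ne_zero _

theorem e_zero : e 0 = 1 := by simp [e]

theorem e_one : e 1 = 1 := by
  rw [e, Complex.exp_eq_one_iff]
  exact ⟨1, by push_cast; ring⟩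

theorem e_deriv (t : ℝ) : HasDerivAt e (2 * Real.pi * Complex.I * e t) t := by
  have h1 : HasDerivAt (fun t : ℝ => (2 * Real.pi * t * Complex.I : ℂ))
      (2 * Real.pi * 1 * Complex.I) t :=
    (((hasDerivAt_id t).ofReal_comp).const_mul (2 * Real.pi : ℂ)).mul_const Complex.I
  refine (h1.cexp).congr_deriv ?_
  unfold e
  ring

theorem e_cont : Continuous e := continuous_iff_continuousAt.2 fun t => (e_deriv t).continuousAt

/-- the rotation about the axis -/
noncomputable def rot (t : ℝ) (z : Z k) : Z k := (e t * z.1, z.2)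

theorem rot_cont : Continuous fun p : ℝ × Z k => rot p.1 p.2 :=
  ((e_cont.comp continuous_fst).mul (continuous_fst.comp continuous_snd)).prodMk
    (continuous_snd.comp continuous_snd)

theorem rot_cont' (z : Z k) : Continuous fun t => rot t z :=
  (e_cont.mul continuous_const).prodMk continuous_const

theorem rot_norm (t : ℝ) (z : Z k) : ‖(rot t z).1‖ = ‖z.1‖ := by
  rw [rot, norm_mul, norm_e, one_mul]

theorem rot_ne {z : Z k} (hz : z.1 ≠ 0) (t : ℝ) : (rot t z).1 ≠ 0 := mul_ne_zero (e_ne t) hz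

theorem rot_mp (t : ℝ) : MeasurePreserving (rot (k := k) t) volume volume := by
  have h1 := (rotation ⟨e t, mem_sphere_zero_iff_norm.2 (norm_e t)⟩).measurePreserving
  have h2 := h1.prod (MeasurePreserving.id (volume : Measure (Fin k → ℝ)))
  rw [← Measure.volume_eq_prod] at h2
  have e1 : (Prod.map (⇑(rotation ⟨e t, mem_sphere_zero_iff_norm.2 (norm_e t)⟩)) id :
      Z k → Z k) = rot t := by
    funext z
    apply Prod.ext
    · exact rotation_apply _ _
    · rfl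
  rwa [e1] at h2

/-- the parameter interval -/
noncomputable abbrev μI : Measure ℝ := volume.restrict (Ioc 0 1)

instance : IsProbabilityMeasure μI := ⟨by simp [μI]⟩

theorem skew_mp : MeasurePreserving (fun p : ℝ × Z k => (p.1, rot p.1 p.2))
    (μI.prod volume) (μI.prod volume) :=
  MeasurePreserving.skew_product (MeasurePreserving.id _) rot_cont.measurable
    (Eventually.of_forall fun t => (rot_mp t).map_eq)

theorem avg_lint {F : Z k → ENNReal} (hF : AEMeasurable F volume) :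
    ∫⁻ z, F z = ∫⁻ z, ∫⁻ t, F (rot t z) ∂μI := by
  have hs := skew_mp (k := k)
  have h2 : AEMeasurable (fun p : ℝ × Z k => F p.2) (μI.prod volume) :=
    hF.comp_quasiMeasurePreserving Measure.quasiMeasurePreserving_snd
  have h3 : AEMeasurable (fun p : ℝ × Z k => F (rot p.1 p.2)) (μI.prod volume) :=
    h2.comp_quasiMeasurePreserving hs.quasiMeasurePreserving
  have e1 : ∫⁻ p, F (rot p.1 p.2) ∂(μI.prod volume) = ∫⁻ p : ℝ × Z k, F p.2 ∂(μI.prod volume) := by
    conv_rhs => rw [← hs.map_eq]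
    rw [lintegral_map' (by rw [hs.map_eq]; exact h2) hs.aemeasurable]
  rw [lintegral_prod_symm _ h3, lintegral_prod_symm _ h2] at e1
  rw [e1]
  simp

theorem avg_int {V : Type} [NormedAddCommGroup V] [NormedSpace ℝ V] [CompleteSpace V] {F : Z k → V}
    (hF : Integrable F) : ∫ z, F z = ∫ z, ∫ t, F (rot t z) ∂μI := by
  have hs := skew_mp (k := k)
  have h2 : Integrable (fun p : ℝ × Z k => F p.2) (μI.prod volume) := hF.comp_snd _
  have h3 : Integrable (fun p : ℝ × Z k => F (rot p.1 p.2)) (μI.prod volume) :=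
    hs.integrable_comp_of_integrable h2
  have e1 : ∫ p, F (rot p.1 p.2) ∂(μI.prod volume) = ∫ p : ℝ × Z k, F p.2 ∂(μI.prod volume) := by
    conv_rhs => rw [← hs.map_eq]
    rw [integral_map hs.aemeasurable (by rw [hs.map_eq]; exact h2.aestronglyMeasurable)]
  rw [integral_prod_symm _ h3, integral_prod_symm _ h2] at e1
  rw [e1]
  simp

/-- the off-axis points -/
def SC (k : ℕ) : Set (Z k) := {z | z.1 ≠ 0}

theorem meas {V : Type} [TopologicalSpace V] [TopologicalSpace.PseudoMetrizableSpace V]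
    [SecondCountableTopologyEither (Z k) V] {G : Z k → V}
    (hG : ContinuousOn G {z | z.1 ≠ 0}) : AEStronglyMeasurable G volume := by
  have h2 := hG.aestronglyMeasurable (μ := volume) isOpen_SC.measurableSet
  have hae : ∀ᵐ z ∂(volume : Measure (Z k)), z ∈ {z : Z k | z.1 ≠ 0} := C_ae
  rwa [Measure.restrict_eq_self_of_ae_mem hae] at h2

/-- `|∂₁u|² + |∂_i u|²` -/
noncomputable def Gp (u : Z k → ℂ) (z : Z k) : ℝ :=
  ‖fderiv ℝ u z (1, 0)‖ ^ 2 + ‖fderiv ℝ u z (Complex.I, 0)‖ ^ 2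

theorem Gp_nonneg (u : Z k → ℂ) (z : Z k) : 0 ≤ Gp u z := by unfold Gp; positivity

theorem fd_cont {u : Z k → ℂ} (hC : ContDiffOn ℝ 1 u {z | z.1 ≠ 0}) :
    ContinuousOn (fderiv ℝ u) {z | z.1 ≠ 0} := hC.continuousOn_fderiv_of_isOpen isOpen_SC le_rfl

theorem fd_app {u : Z k → ℂ} (hC : ContDiffOn ℝ 1 u {z | z.1 ≠ 0}) (h : Z k) :
    ContinuousOn (fun z => fderiv ℝ u z h) {z | z.1 ≠ 0} := (fd_cont hC).clm_apply continuousOn_const

theorem Gp_cont {u : Z k → ℂ} (hC : ContDiffOn ℝ 1 u {z | z.1 ≠ 0}) :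
    ContinuousOn (Gp u) {z | z.1 ≠ 0} :=
  ((fd_app hC _).norm.pow 2).add ((fd_app hC _).norm.pow 2)

theorem lin2 (p q : ℂ) (a b : ℝ) :
    ‖a • p + b • q‖ ^ 2 ≤ (a ^ 2 + b ^ 2) * (‖p‖ ^ 2 + ‖q‖ ^ 2) := by
  have h1 : ‖a • p + b • q‖ ≤ |a| * ‖p‖ + |b| * ‖q‖ := by
    refine (norm_add_le _ _).trans ?_
    rw [norm_smul, norm_smul, Real.norm_eq_abs, Real.norm_eq_abs]
  have h2 : 0 ≤ |a| * ‖p‖ + |b| * ‖q‖ := by positivity
  have h3 : ‖a • p + b • q‖ ^ 2 ≤ (|a| * ‖p‖ + |b| * ‖q‖) ^ 2 := by gcongr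
  have h4 : |a| ^ 2 = a ^ 2 := sq_abs a
  have h5 : |b| ^ 2 = b ^ 2 := sq_abs b
  nlinarith [sq_nonneg (|a| * ‖q‖ - |b| * ‖p‖)]

theorem lin_le (L : Z k →L[ℝ] ℂ) (w : ℂ) :
    ‖L (w, 0)‖ ^ 2 ≤ ‖w‖ ^ 2 * (‖L (1, 0)‖ ^ 2 + ‖L (Complex.I, 0)‖ ^ 2) := by
  have h1 : ((w, 0) : Z k) = w.re • ((1, 0) : Z k) + w.im • ((Complex.I, 0) : Z k) := by
    apply Prod.ext
    · apply Complex.ext <;> simp
    · simp
  rw [h1, map_add, map_smul, map_smul]
  refine (lin2 _ _ _ _).trans_eq ?_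
  rw [Complex.sq_norm w, Complex.normSq_apply]
  ring

/-- derivative along the circle -/
theorem circ_deriv {u : Z k → ℂ} (hC : ContDiffOn ℝ 1 u {z | z.1 ≠ 0}) {z : Z k} (hz : z.1 ≠ 0)
    (t : ℝ) : HasDerivAt (fun t => u (rot t z))
      (fderiv ℝ u (rot t z) (2 * Real.pi * Complex.I * e t * z.1, 0)) t := by
  have h1 : HasFDerivAt u (fderiv ℝ u (rot t z)) (rot t z) :=
    ((hC.contDiffAt (isOpen_SC.mem_nhds (rot_ne hz t))).differentiableAt (by simp)).hasFDerivAt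
  have h2 : HasDerivAt (fun t => rot t z) (2 * Real.pi * Complex.I * e t * z.1, 0) t :=
    ((e_deriv t).mul_const z.1).prodMk (hasDerivAt_const t z.2)
  exact h1.comp_hasDerivAt t h2

theorem circle_hardy {u : Z k → ℂ} (hC : ContDiffOn ℝ 1 u {z | z.1 ≠ 0}) {κ : ℝ} (hκ : 0 ≤ κ)
    {z : Z k} (hz : z.1 ≠ 0) (hs : ∀ l : ℤ, |(l : ℝ)| < κ → c1 (fun t => u (rot t z)) l = 0) :
    κ ^ 2 * ∫ t in (0 : ℝ)..1, ‖u (rot t z)‖ ^ 2 ≤
      ‖z.1‖ ^ 2 * ∫ t in (0 : ℝ)..1, Gp u (rot t z) := by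
  have hm : ∀ t, rot t z ∈ {z : Z k | z.1 ≠ 0} := fun t => rot_ne hz t
  have hc : Continuous fun t => fderiv ℝ u (rot t z) (2 * Real.pi * Complex.I * e t * z.1, 0) := by
    have h1 : Continuous fun t => fderiv ℝ u (rot t z) :=
      (fd_cont hC).comp_continuous (rot_cont' z) hm
    refine h1.clm_apply (Continuous.prodMk ?_ continuous_const)
    exact ((continuous_const.mul e_cont).mul continuous_const)
  have hp : u (rot 1 z) = u (rot 0 z) := by rw [rot, rot, e_one, e_zero]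
  have h1 := wirt (fun t => circ_deriv hC hz t) hc hp hκ hs
  have hG : Continuous fun t => Gp u (rot t z) := (Gp_cont hC).comp_continuous (rot_cont' z) hm
  have h2 : ∫ t in (0 : ℝ)..1,
      ‖fderiv ℝ u (rot t z) (2 * Real.pi * Complex.I * e t * z.1, 0)‖ ^ 2 ≤
      ∫ t in (0 : ℝ)..1, (2 * Real.pi * ‖z.1‖) ^ 2 * Gp u (rot t z) := by
    refine intervalIntegral.integral_mono_on zero_le_one ((hc.norm.pow 2).intervalIntegrable _ _)
      ((continuous_const.mul hG).intervalIntegrable _ _) fun t _ => ?_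
    refine (lin_le _ _).trans_eq ?_
    have e1 : ‖(2 * Real.pi * Complex.I * e t * z.1 : ℂ)‖ = 2 * Real.pi * ‖z.1‖ := by
      rw [norm_mul, norm_mul, norm_mul, norm_mul, norm_e, Complex.norm_I, Complex.norm_real,
        Real.norm_of_nonneg Real.pi_pos.le]
      simp
    rw [e1]
    rfl
  rw [intervalIntegral.integral_const_mul] at h2
  have h3 := h1.trans h2
  have hπ := Real.pi_pos
  have h4 : 0 < (2 * Real.pi) ^ 2 := by positivity
  rw [mul_pow, mul_pow _ ‖z.1‖, mul_assoc, mul_assoc] at h3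
  exact le_of_mul_le_mul_left h3 h4

/-- the Hardy inequality for functions without angular momenta `|l| < κ` -/
theorem hardy {u : Z k → ℂ} (hC : ContDiffOn ℝ 1 u {z | z.1 ≠ 0}) {κ : ℝ} (hκ : 0 < κ)
    (hG : Integrable (Gp u))
    (hs : ∀ l : ℤ, |(l : ℝ)| < κ → ∀ z : Z k, z.1 ≠ 0 → c1 (fun t => u (rot t z)) l = 0) :
    Integrable (fun z => ‖u z‖ ^ 2 / ‖z.1‖ ^ 2) ∧
      κ ^ 2 * ∫ z, ‖u z‖ ^ 2 / ‖z.1‖ ^ 2 ≤ ∫ z, Gp u z := by
  have hcu : ContinuousOn (fun z : Z k => ‖u z‖ ^ 2 / ‖z.1‖ ^ 2) {z | z.1 ≠ 0} := by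
    refine (hC.continuousOn.norm.pow 2).div (continuous_fst.norm.pow 2).continuousOn fun z hz => ?_
    have : 0 < ‖z.1‖ := norm_pos_iff.2 hz
    positivity
  have hm1 : AEStronglyMeasurable (fun z : Z k => ‖u z‖ ^ 2 / ‖z.1‖ ^ 2) volume := meas hcu
  have hnn : ∀ z : Z k, 0 ≤ ‖u z‖ ^ 2 / ‖z.1‖ ^ 2 := fun z => by positivity
  have key : ∫⁻ z : Z k, ENNReal.ofReal (κ ^ 2 * (‖u z‖ ^ 2 / ‖z.1‖ ^ 2)) ≤
      ∫⁻ z, ENNReal.ofReal (Gp u z) := by
    rw [avg_lint ((hm1.const_mul (κ ^ 2)).aemeasurable.ennreal_ofReal),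
      avg_lint ((meas (Gp_cont hC)).aemeasurable.ennreal_ofReal)]
    refine lintegral_mono_ae ?_
    filter_upwards [C_ae (k := k)] with z hz
    have hm : ∀ t, rot t z ∈ {z : Z k | z.1 ≠ 0} := fun t => rot_ne hz t
    have hz0 : 0 < ‖z.1‖ := norm_pos_iff.2 hz
    have c1' : Continuous fun t => κ ^ 2 * (‖u (rot t z)‖ ^ 2 / ‖(rot t z).1‖ ^ 2) :=
      continuous_const.mul (hcu.comp_continuous (rot_cont' z) hm)
    have c2' : Continuous fun t => Gp u (rot t z) := (Gp_cont hC).comp_continuous (rot_cont' z) hm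
    have i1 : Integrable (fun t => κ ^ 2 * (‖u (rot t z)‖ ^ 2 / ‖(rot t z).1‖ ^ 2)) μI :=
      c1'.integrableOn_Ioc
    have i2 : Integrable (fun t => Gp u (rot t z)) μI := c2'.integrableOn_Ioc
    rw [← ofReal_integral_eq_lintegral_ofReal i1 (Eventually.of_forall fun t => by
        have := hnn (rot t z); positivity),
      ← ofReal_integral_eq_lintegral_ofReal i2 (Eventually.of_forall fun t => Gp_nonneg _ _)]
    apply ENNReal.ofReal_le_ofReal
    rw [μI, ← intervalIntegral.integral_of_le zero_le_one,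
      ← intervalIntegral.integral_of_le zero_le_one]
    have h1 := circle_hardy hC hκ.le hz fun l hl => hs l hl z hz
    have e1 : ∫ t in (0 : ℝ)..1, κ ^ 2 * (‖u (rot t z)‖ ^ 2 / ‖(rot t z).1‖ ^ 2) =
        (κ ^ 2 * ∫ t in (0 : ℝ)..1, ‖u (rot t z)‖ ^ 2) / ‖z.1‖ ^ 2 := by
      rw [intervalIntegral.integral_const_mul, mul_div_assoc]
      congr 1
      simp only [rot_norm]
      rw [intervalIntegral.integral_div]
    rw [e1, div_le_iff₀ (by positivity)]
    linarith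
  have hfin : ∫⁻ z, ENNReal.ofReal (Gp u z) < ⊤ := by
    have := hG.lintegral_lt_top
    exact this
  have hi : Integrable (fun z : Z k => κ ^ 2 * (‖u z‖ ^ 2 / ‖z.1‖ ^ 2)) := by
    refine ⟨hm1.const_mul (κ ^ 2), ?_⟩
    rw [hasFiniteIntegral_iff_ofReal (Eventually.of_forall fun z => by
      have := hnn z; positivity)]
    exact key.trans_lt hfin
  have hκ2 : κ ^ 2 ≠ 0 := by positivity
  have hi' : Integrable (fun z : Z k => ‖u z‖ ^ 2 / ‖z.1‖ ^ 2) :=
    (integrable_const_mul_iff (IsUnit.mk0 _ hκ2) _).1 hi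
  refine ⟨hi', ?_⟩
  rw [← integral_const_mul]
  rw [← ofReal_integral_eq_lintegral_ofReal hi (Eventually.of_forall fun z => by
      have := hnn z; positivity),
    ← ofReal_integral_eq_lintegral_ofReal hG (Eventually.of_forall fun z => Gp_nonneg _ _)] at key
  exact (ENNReal.ofReal_le_ofReal_iff (integral_nonneg fun z => Gp_nonneg _ _)).1 key

end Pool.Agent.U280.LT
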