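import Pool.Agent.U280.LT.Mult
import Pool.Agent.N96.PR.D

/-! Functions which are `C¹` off the axis, with finite energy and finite Hardy integral, have weak
derivatives. -/

set_option autoImplicit false

open MeasureTheory Set Filter Topology

namespace Pool.Agent.U280.LT

open H171FV (c1 pars1)
open Pool.Agent.N96.AX (gradC isOpen_SC diffC C_ae)
open Pool.Agent.N96.PR (T T_mp pd_supp pd_cont)
open LTd (pd WGradC)

variable {k : ℕ}

/-- the coordinates -/
noncomputable def PhL (k : ℕ) : (Fin (k + 2) → ℝ) →ₗ[ℝ] Z k where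
  toFun p := (⟨p 0, p 1⟩, fun j => p j.succ.succ)
  map_add' p q := by
    apply Prod.ext
    · apply Complex.ext <;> rfl
    · rfl
  map_smul' a p := by
    apply Prod.ext
    · apply Complex.ext <;> simp
    · rfl

/-- the coordinates as a continuous map -/
noncomputable def Ph (k : ℕ) : (Fin (k + 2) → ℝ) →L[ℝ] Z k := LinearMap.toContinuousLinearMap (PhL k)

theorem Ph_apply (p : Fin (k + 2) → ℝ) : Ph k p = (⟨p 0, p 1⟩, fun j => p j.succ.succ) := rfl

theorem Ph_mp (k : ℕ) : MeasurePreserving (Ph k) volume volume := by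
  have h1 := T_mp (k + 1)
  have h2 : MeasurePreserving (Prod.map (id : ℝ → ℝ) (T (k := k))) volume volume := by
    have := (MeasurePreserving.id (volume : Measure ℝ)).prod (T_mp k)
    rwa [← Measure.volume_eq_prod, ← Measure.volume_eq_prod] at this
  have h3 : MeasurePreserving (MeasurableEquiv.prodAssoc.symm :
      ℝ × (ℝ × (Fin k → ℝ)) ≃ᵐ (ℝ × ℝ) × (Fin k → ℝ)) volume volume :=
    (volume_preserving_prodAssoc).symm
  have h4 : MeasurePreserving (Prod.map (Complex.measurableEquivRealProd.symm)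
      (id : (Fin k → ℝ) → (Fin k → ℝ))) volume volume := by
    have := (Complex.volume_preserving_equiv_real_prod.symm).prod
      (MeasurePreserving.id (volume : Measure (Fin k → ℝ)))
    rwa [← Measure.volume_eq_prod, ← Measure.volume_eq_prod] at this
  have h5 := h4.comp (h3.comp (h2.comp h1))
  have e1 : (Ph k : (Fin (k + 2) → ℝ) → Z k) = Prod.map (Complex.measurableEquivRealProd.symm) id ∘
      MeasurableEquiv.prodAssoc.symm ∘ Prod.map id (T (k := k)) ∘ T (k := k + 1) := by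
    funext p
    rfl
  rw [e1]
  exact h5

theorem Ph_norm (p : Fin (k + 2) → ℝ) : ‖(Ph k p).1‖ ^ 2 = p 0 ^ 2 + p 1 ^ 2 := by
  rw [Ph_apply, Complex.sq_norm, Complex.normSq_apply]
  ring

theorem Ph_ae (k : ℕ) : ∀ᵐ p ∂(volume : Measure (Fin (k + 2) → ℝ)), (Ph k p).1 ≠ 0 :=
  (Ph_mp k).quasiMeasurePreserving.ae C_ae

/-- the derivative of the smooth step function is bounded -/
theorem step_bound : ∃ C : ℝ, 0 ≤ C ∧ ∀ s : ℝ, |deriv Real.smoothTransition s| ≤ C := by
  have hc : Continuous (deriv Real.smoothTransition) :=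
    (Real.smoothTransition.contDiff (n := 1)).continuous_deriv le_rfl
  obtain ⟨C, hC⟩ := (isCompact_Icc (a := (0 : ℝ)) (b := 1)).exists_bound_of_continuousOn
    hc.continuousOn
  refine ⟨max C 0, le_max_right _ _, fun s => ?_⟩
  rcases lt_trichotomy s 0 with h | h | h
  · have : deriv Real.smoothTransition s = 0 := by
      have he : Real.smoothTransition =ᶠ[𝓝 s] fun _ => (0 : ℝ) := by
        filter_upwards [gt_mem_nhds h] with x hx
        exact Real.smoothTransition.zero_of_nonpos hx.le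
      rw [he.deriv_eq]; simp
    rw [this, abs_zero]
    exact le_max_right _ _
  · exact (hC s (by rw [h]; exact ⟨le_rfl, zero_le_one⟩)).trans (le_max_left _ _)
  · rcases le_or_gt s 1 with h1 | h1
    · exact (hC s ⟨h.le, h1⟩).trans (le_max_left _ _)
    · have : deriv Real.smoothTransition s = 0 := by
        have he : Real.smoothTransition =ᶠ[𝓝 s] fun _ => (1 : ℝ) := by
          filter_upwards [lt_mem_nhds h1] with x hx
          exact Real.smoothTransition.one_of_one_le hx.le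
        rw [he.deriv_eq]; simp
      rw [this, abs_zero]
      exact le_max_right _ _

/-- the cut-off function -/
noncomputable def chi (n : ℕ) (p : Fin (k + 2) → ℝ) : ℝ :=
  Real.smoothTransition (2 * (n * ‖(Ph k p).1‖) ^ 2 - 1)

/-- its derivative in the direction `h` -/
noncomputable def chi' (n : ℕ) (h p : Fin (k + 2) → ℝ) : ℝ :=
  deriv Real.smoothTransition (2 * (n * ‖(Ph k p).1‖) ^ 2 - 1) *
    (4 * n ^ 2 * (p 0 * h 0 + p 1 * h 1))

theorem chi_one {n : ℕ} {p : Fin (k + 2) → ℝ} (h : 1 ≤ n * ‖(Ph k p).1‖) : chi n p = 1 := by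
  apply Real.smoothTransition.one_of_one_le
  nlinarith

theorem chi_bound (n : ℕ) (p : Fin (k + 2) → ℝ) : 0 ≤ chi n p ∧ chi n p ≤ 1 :=
  ⟨Real.smoothTransition.nonneg _, Real.smoothTransition.le_one _⟩

theorem chi'_zero {n : ℕ} {h p : Fin (k + 2) → ℝ} (hp : 1 < n * ‖(Ph k p).1‖) :
    chi' n h p = 0 := by
  have h1 : (1 : ℝ) < 2 * (n * ‖(Ph k p).1‖) ^ 2 - 1 := by nlinarith
  have : deriv Real.smoothTransition (2 * (n * ‖(Ph k p).1‖) ^ 2 - 1) = 0 := by
    have he : Real.smoothTransition =ᶠ[𝓝 (2 * (n * ‖(Ph k p).1‖) ^ 2 - 1)] fun _ => (1 : ℝ) := by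
      filter_upwards [lt_mem_nhds h1] with x hx
      exact Real.smoothTransition.one_of_one_le hx.le
    rw [he.deriv_eq]; simp
  rw [chi', this, zero_mul]

theorem chi_deriv (n : ℕ) (h p : Fin (k + 2) → ℝ) :
    HasLineDerivAt ℝ (chi (k := k) n) (chi' n h p) p h := by
  have h1 : ∀ i : Fin (k + 2), HasDerivAt (fun s : ℝ => (p + s • h) i) (h i) 0 := by
    intro i
    have := ((hasDerivAt_id (0 : ℝ)).mul_const (h i)).const_add (p i)
    simpa using this
  have h2 : HasDerivAt (fun s : ℝ => 2 * ((n : ℝ) ^ 2 * ((p + s • h) 0 ^ 2 + (p + s • h) 1 ^ 2)) - 1)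
      (2 * ((n : ℝ) ^ 2 * (2 * (p + (0 : ℝ) • h) 0 ^ 1 * h 0 + 2 * (p + (0 : ℝ) • h) 1 ^ 1 * h 1))) 0 := by
    have := ((((h1 0).pow 2).add ((h1 1).pow 2)).const_mul ((n : ℝ) ^ 2)).const_mul 2
    have := this.sub_const 1
    simpa using this
  have h3 : HasDerivAt Real.smoothTransition (deriv Real.smoothTransition
      (2 * ((n : ℝ) ^ 2 * ((p + (0 : ℝ) • h) 0 ^ 2 + (p + (0 : ℝ) • h) 1 ^ 2)) - 1))
      (2 * ((n : ℝ) ^ 2 * ((p + (0 : ℝ) • h) 0 ^ 2 + (p + (0 : ℝ) • h) 1 ^ 2)) - 1) :=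
    ((Real.smoothTransition.contDiff (n := 1)).differentiable (by simp)).differentiableAt.hasDerivAt
  have h4 := h3.comp (0 : ℝ) h2
  unfold HasLineDerivAt
  have e1 : (fun s : ℝ => chi n (p + s • h)) = Real.smoothTransition ∘
      fun s : ℝ => 2 * ((n : ℝ) ^ 2 * ((p + s • h) 0 ^ 2 + (p + s • h) 1 ^ 2)) - 1 := by
    funext s
    rw [chi, mul_pow, Ph_norm]
    rfl
  rw [e1]
  refine h4.congr_deriv ?_
  rw [chi', mul_pow, Ph_norm]
  simp only [zero_smul, add_zero, pow_one]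
  ring

theorem chi'_bound {C : ℝ} (hC0 : 0 ≤ C) (hC : ∀ s : ℝ, |deriv Real.smoothTransition s| ≤ C) (n : ℕ)
    {h p : Fin (k + 2) → ℝ} (hh : h 0 ^ 2 + h 1 ^ 2 ≤ 1) (hp : (Ph k p).1 ≠ 0) :
    |chi' n h p| ≤ 4 * C / ‖(Ph k p).1‖ := by
  have hr : 0 < ‖(Ph k p).1‖ := norm_pos_iff.2 hp
  rcases lt_or_ge 1 (n * ‖(Ph k p).1‖) with h1 | h1
  · rw [chi'_zero h1, abs_zero]
    positivity
  · rw [chi', abs_mul]
    have h2 : |4 * (n : ℝ) ^ 2 * (p 0 * h 0 + p 1 * h 1)| ≤ 4 / ‖(Ph k p).1‖ := by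
      have h3 : |p 0 * h 0 + p 1 * h 1| ≤ ‖(Ph k p).1‖ := by
        apply abs_le_of_sq_le_sq _ hr.le
        rw [Ph_norm]
        nlinarith [sq_nonneg (p 0 * h 1 - p 1 * h 0), sq_nonneg (p 0), sq_nonneg (p 1)]
      rw [abs_mul, abs_of_nonneg (by positivity : (0 : ℝ) ≤ 4 * (n : ℝ) ^ 2), le_div_iff₀ hr]
      have h4 : (n : ℝ) ^ 2 * ‖(Ph k p).1‖ ^ 2 ≤ 1 := by
        rw [← mul_pow]
        have : 0 ≤ n * ‖(Ph k p).1‖ := by positivity
        nlinarith
      calc 4 * (n : ℝ) ^ 2 * |p 0 * h 0 + p 1 * h 1| * ‖(Ph k p).1‖ ≤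
          4 * (n : ℝ) ^ 2 * ‖(Ph k p).1‖ * ‖(Ph k p).1‖ := by gcongr
        _ = 4 * ((n : ℝ) ^ 2 * ‖(Ph k p).1‖ ^ 2) := by ring
        _ ≤ 4 := by linarith
    calc _ ≤ C * (4 / ‖(Ph k p).1‖) := mul_le_mul (hC _) h2 (abs_nonneg _) hC0
      _ = _ := by ring

/-- the class of functions -/
structure Reg (u : Z k → ℂ) : Prop where
  smooth : ContDiffOn ℝ 1 u {z | z.1 ≠ 0}
  sq : Integrable (fun z => ‖u z‖ ^ 2)
  energy : Integrable (gradC u)
  hardy : Integrable (fun z => ‖u z‖ ^ 2 / ‖z.1‖ ^ 2)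

theorem memLp_pull {G : Z k → ℂ} (hG : ContinuousOn G {z | z.1 ≠ 0})
    (h2 : Integrable (fun z => ‖G z‖ ^ 2)) : MemLp (fun p => G (Ph k p)) 2 volume := by
  have h1 : MemLp G 2 volume := (memLp_two_iff_integrable_sq_norm (meas hG)).2 h2
  exact h1.comp_measurePreserving (Ph_mp k)

theorem dir_int {u : Z k → ℂ} (hu : Reg u) (h : Z k)
    (hh : ∀ z, ‖fderiv ℝ u z h‖ ^ 2 ≤ gradC u z) :
    Integrable (fun z => ‖fderiv ℝ u z h‖ ^ 2) :=
  Integrable.mono' hu.energy (meas ((fd_app hu.smooth h).norm.pow 2))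
    (Eventually.of_forall fun z => by
      rw [Real.norm_of_nonneg (by positivity)]; exact hh z)

theorem Ph_0 : Ph k (Pi.single 0 1) = (1, 0) := by
  rw [Ph_apply]
  apply Prod.ext
  · apply Complex.ext <;> simp
  · funext j
    simp

theorem Ph_1 : Ph k (Pi.single 1 1) = (Complex.I, 0) := by
  rw [Ph_apply]
  apply Prod.ext
  · apply Complex.ext <;> simp
  · funext j
    show (Pi.single (1 : Fin (k + 2)) (1 : ℝ) : Fin (k + 2) → ℝ) j.succ.succ = 0
    rw [Pi.single_apply, if_neg]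
    intro h
    have := congrArg Fin.val h
    simp at this

theorem Ph_j (j : Fin k) : Ph k (Pi.single j.succ.succ 1) = (0, Pi.single j 1) := by
  rw [Ph_apply]
  apply Prod.ext
  · apply Complex.ext
    · simp [Fin.ext_iff]
    · show (Pi.single (j.succ.succ : Fin (k + 2)) (1 : ℝ) : Fin (k + 2) → ℝ) 1 = 0
      rw [Pi.single_apply, if_neg]
      intro h
      have := congrArg Fin.val h
      simp at this
  · funext i
    simp [Pi.single_apply, Fin.ext_iff]

theorem gradC_sum (u : Z k → ℂ) (z : Z k) :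
    ∑ i : Fin (k + 2), ‖fderiv ℝ u z (Ph k (Pi.single i 1))‖ ^ 2 = gradC u z := by
  rw [Fin.sum_univ_succ, Fin.sum_univ_succ]
  have h1 : Ph k (Pi.single (Fin.succ (0 : Fin (k + 1))) 1) = (Complex.I, 0) := Ph_1
  rw [Ph_0, h1]
  simp only [Ph_j]
  unfold gradC
  ring

theorem gradC_dir (u : Z k → ℂ) (z : Z k) (i : Fin (k + 2)) :
    ‖fderiv ℝ u z (Ph k (Pi.single i 1))‖ ^ 2 ≤ gradC u z := by
  rw [← gradC_sum]
  exact Finset.single_le_sum (f := fun i : Fin (k + 2) => ‖fderiv ℝ u z (Ph k (Pi.single i 1))‖ ^ 2)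
    (fun _ _ => sq_nonneg _) (Finset.mem_univ i)

theorem single_sq (i : Fin (k + 2)) : (Pi.single i (1 : ℝ) : Fin (k + 2) → ℝ) 0 ^ 2 +
    (Pi.single i (1 : ℝ) : Fin (k + 2) → ℝ) 1 ^ 2 ≤ 1 := by
  have h01 : (0 : Fin (k + 2)) ≠ 1 := by simp
  rw [Pi.single_apply, Pi.single_apply]
  by_cases h0 : (0 : Fin (k + 2)) = i
  · rw [if_pos h0, if_neg (fun h => h01 (h0.trans h.symm))]; norm_num
  · rw [if_neg h0]
    split_ifs <;> norm_num

/-- a regular function has weak derivatives -/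
theorem Reg.wgrad {u : Z k → ℂ} (hu : Reg u) :
    WGradC (fun p => u (Ph k p)) (fun i p => fderiv ℝ u (Ph k p) (Ph k (Pi.single i 1))) := by
  have mg : ∀ i, MemLp (fun p => fderiv ℝ u (Ph k p) (Ph k (Pi.single i 1))) 2 volume := fun i =>
    memLp_pull (fd_app hu.smooth _) (dir_int hu _ fun z => gradC_dir u z i)
  have mu : MemLp (fun p => u (Ph k p)) 2 volume := memLp_pull hu.smooth.continuousOn hu.sq
  refine ⟨mu, mg, ?_⟩
  intro i φ hφ hφc
  obtain ⟨C, hC0, hC⟩ := step_bound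
  set h : Fin (k + 2) → ℝ := Pi.single i 1 with hh
  have mφ : MemLp (fun p => (φ p : ℂ)) 2 (volume : Measure (Fin (k + 2) → ℝ)) :=
    (Complex.continuous_ofReal.comp hφ.continuous).memLp_of_hasCompactSupport
      (hφc.comp_left (g := fun t : ℝ => (t : ℂ)) Complex.ofReal_zero)
  have mφ' : MemLp (fun p => (pd i φ p : ℂ)) 2 (volume : Measure (Fin (k + 2) → ℝ)) :=
    (Complex.continuous_ofReal.comp (pd_cont hφ i)).memLp_of_hasCompactSupport
      ((pd_supp hφc i).comp_left (g := fun t : ℝ => (t : ℂ)) Complex.ofReal_zero)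
  have mH : MemLp (fun p => ((‖(Ph k p).1‖⁻¹ : ℝ) : ℂ) * u (Ph k p)) 2 volume := by
    refine memLp_pull (G := fun z : Z k => ((‖z.1‖⁻¹ : ℝ) : ℂ) * u z) ?_ ?_
    · refine ContinuousOn.mul ?_ hu.smooth.continuousOn
      refine Complex.continuous_ofReal.comp_continuousOn ?_
      exact (continuous_fst.norm.continuousOn).inv₀ fun z hz => norm_ne_zero_iff.2 hz
    · refine hu.hardy.congr (Eventually.of_forall fun z => ?_)
      show ‖u z‖ ^ 2 / ‖z.1‖ ^ 2 = ‖((‖z.1‖⁻¹ : ℝ) : ℂ) * u z‖ ^ 2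
      rw [norm_mul, Complex.norm_real, Real.norm_of_nonneg (by positivity), mul_pow, inv_pow]
      ring
  have i1 : Integrable (fun p => u (Ph k p) * (pd i φ p : ℂ)) := mu.integrable_mul mφ'
  have i2 : Integrable (fun p => fderiv ℝ u (Ph k p) (Ph k h) * (φ p : ℂ)) :=
    (mg i).integrable_mul mφ
  have i3 : Integrable (fun p => ((‖(Ph k p).1‖⁻¹ : ℝ) : ℂ) * u (Ph k p) * (φ p : ℂ)) :=
    mH.integrable_mul mφ
  have i4 : Integrable (fun p => u (Ph k p) * (φ p : ℂ)) := mu.integrable_mul mφ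
  -- measurability of the cut-off functions
  have cchi : ∀ n : ℕ, Continuous (chi (k := k) n) := by
    intro n
    unfold chi
    have := Real.smoothTransition.continuous
    have h2 : Continuous fun p : Fin (k + 2) → ℝ => ‖(Ph k p).1‖ :=
      (continuous_fst.comp (Ph k).continuous).norm
    fun_prop
  have cchi' : ∀ n : ℕ, Continuous (chi' (k := k) n h) := by
    intro n
    unfold chi'
    have h1 : Continuous (deriv Real.smoothTransition) :=
      (Real.smoothTransition.contDiff (n := 1)).continuous_deriv le_rfl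
    have h2 : Continuous fun p : Fin (k + 2) → ℝ => ‖(Ph k p).1‖ :=
      (continuous_fst.comp (Ph k).continuous).norm
    fun_prop
  have mchi : ∀ n : ℕ, AEStronglyMeasurable (fun p => (chi (k := k) n p : ℂ)) volume := fun n =>
    (Complex.continuous_ofReal.comp (cchi n)).aestronglyMeasurable
  have mchi' : ∀ n : ℕ, AEStronglyMeasurable (fun p => (chi' (k := k) n h p : ℂ)) volume := fun n =>
    (Complex.continuous_ofReal.comp (cchi' n)).aestronglyMeasurable
  have nchi : ∀ (n : ℕ) (p : Fin (k + 2) → ℝ), ‖(chi n p : ℂ)‖ ≤ 1 := by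
    intro n p
    rw [Complex.norm_real, Real.norm_of_nonneg (chi_bound n p).1]
    exact (chi_bound n p).2
  -- the product rule
  have hder : ∀ (n : ℕ) (p : Fin (k + 2) → ℝ),
      HasLineDerivAt ℝ (fun p => (chi n p : ℂ) * u (Ph k p))
        ((chi n p : ℂ) * fderiv ℝ u (Ph k p) (Ph k h) + (chi' n h p : ℂ) * u (Ph k p)) p h := by
    intro n p
    by_cases hp : (Ph k p).1 = 0
    · -- zero near the axis
      have hN : (‖(Ph k p).1‖ : ℝ) = 0 := by rw [hp, norm_zero]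
      have hcont : Continuous fun s : ℝ => 2 * (n * ‖(Ph k (p + s • h)).1‖) ^ 2 - 1 := by
        have h2 : Continuous fun s : ℝ => ‖(Ph k (p + s • h)).1‖ :=
          (continuous_fst.comp ((Ph k).continuous.comp (by fun_prop))).norm
        fun_prop
      have hlt : ∀ᶠ s : ℝ in 𝓝 0, 2 * (n * ‖(Ph k (p + s • h)).1‖) ^ 2 - 1 < 0 := by
        refine hcont.continuousAt.eventually_lt continuousAt_const ?_
        simp [hp]
      have he : (fun s : ℝ => (chi n (p + s • h) : ℂ) * u (Ph k (p + s • h))) =ᶠ[𝓝 0]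
          fun _ => (0 : ℂ) := by
        filter_upwards [hlt] with s hs
        rw [chi, Real.smoothTransition.zero_of_nonpos hs.le]
        simp
      have hz : ((chi n p : ℂ) * fderiv ℝ u (Ph k p) (Ph k h) + (chi' n h p : ℂ) * u (Ph k p)) = 0 := by
        have h1 : chi n p = 0 := by
          rw [chi, hN]
          apply Real.smoothTransition.zero_of_nonpos
          norm_num
        have h2 : p 0 = 0 ∧ p 1 = 0 := by
          have := Ph_norm p
          rw [hN] at this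
          constructor <;> nlinarith [sq_nonneg (p 0), sq_nonneg (p 1)]
        have h3 : chi' n h p = 0 := by
          rw [chi', h2.1, h2.2]; ring
        rw [h1, h3]; simp
      rw [hz]
      exact (hasDerivAt_const (0 : ℝ) (0 : ℂ)).congr_of_eventuallyEq he
    · have d2 : HasFDerivAt u (fderiv ℝ u (Ph k p)) (Ph k p) :=
        ((hu.smooth.contDiffAt (isOpen_SC.mem_nhds hp)).differentiableAt (by simp)).hasFDerivAt
      have hl : HasDerivAt (fun s : ℝ => Ph k (p + s • h)) (Ph k h) 0 := by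
        have h1 : HasDerivAt (fun s : ℝ => p + s • h) h 0 := by
          have := ((hasDerivAt_id (0 : ℝ)).smul_const h).const_add p
          simpa using this
        exact (Ph k).hasFDerivAt.comp_hasDerivAt (0 : ℝ) h1
      have e0 : Ph k (p + (0 : ℝ) • h) = Ph k p := by simp
      have d3 : HasDerivAt (fun s : ℝ => u (Ph k (p + s • h))) (fderiv ℝ u (Ph k p) (Ph k h)) 0 :=
        HasFDerivAt.comp_hasDerivAt (0 : ℝ) (by rw [e0]; exact d2) hl
      have d4 : HasDerivAt (fun s : ℝ => (chi n (p + s • h) : ℂ)) (chi' n h p : ℂ) 0 :=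
        HasDerivAt.ofReal_comp (chi_deriv n h p)
      have d5 := d4.mul d3
      refine d5.congr_deriv ?_
      simp only [zero_smul, add_zero]
      ring
  have hderφ : ∀ p, HasLineDerivAt ℝ (fun p => (φ p : ℂ)) (pd i φ p : ℂ) p h := by
    intro p
    have h1 : HasLineDerivAt ℝ φ (pd i φ p) p h :=
      ((hφ.differentiable (by simp)).differentiableAt.hasFDerivAt).hasLineDerivAt h
    exact HasDerivAt.ofReal_comp h1
  -- integrability for the approximation
  have j1 : ∀ n : ℕ, Integrable (fun p => ((chi n p : ℂ) * u (Ph k p)) * (pd i φ p : ℂ)) := by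
    intro n
    refine Integrable.mono' i1.norm (((mchi n).mul mu.1).mul mφ'.1) (Eventually.of_forall fun p => ?_)
    rw [norm_mul, norm_mul, norm_mul]
    have := nchi n p
    have h0 : 0 ≤ ‖u (Ph k p)‖ * ‖(pd i φ p : ℂ)‖ := by positivity
    nlinarith
  have j2 : ∀ n : ℕ, Integrable (fun p => ((chi n p : ℂ) * u (Ph k p)) * (φ p : ℂ)) := by
    intro n
    refine Integrable.mono' i4.norm (((mchi n).mul mu.1).mul mφ.1) (Eventually.of_forall fun p => ?_)
    rw [norm_mul, norm_mul, norm_mul]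
    have := nchi n p
    have h0 : 0 ≤ ‖u (Ph k p)‖ * ‖(φ p : ℂ)‖ := by positivity
    nlinarith
  have b3 : ∀ (n : ℕ), ∀ᵐ p ∂(volume : Measure (Fin (k + 2) → ℝ)),
      ‖(chi n p : ℂ) * (fderiv ℝ u (Ph k p) (Ph k h) * (φ p : ℂ))‖ ≤
      ‖fderiv ℝ u (Ph k p) (Ph k h) * (φ p : ℂ)‖ := fun n => Eventually.of_forall fun p => by
    rw [norm_mul]
    have := nchi n p
    have h0 : 0 ≤ ‖fderiv ℝ u (Ph k p) (Ph k h) * (φ p : ℂ)‖ := norm_nonneg _
    nlinarith
  have j3 : ∀ n : ℕ, Integrable (fun p => (chi n p : ℂ) *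
      (fderiv ℝ u (Ph k p) (Ph k h) * (φ p : ℂ))) := fun n =>
    Integrable.mono' i2.norm ((mchi n).mul ((mg i).1.mul mφ.1)) (b3 n)
  have b4 : ∀ (n : ℕ), ∀ᵐ p ∂(volume : Measure (Fin (k + 2) → ℝ)),
      ‖(chi' n h p : ℂ) * (u (Ph k p) * (φ p : ℂ))‖ ≤
      4 * C * ‖((‖(Ph k p).1‖⁻¹ : ℝ) : ℂ) * u (Ph k p) * (φ p : ℂ)‖ := by
    intro n
    filter_upwards [Ph_ae k] with p hp
    have h1 := chi'_bound hC0 hC n (h := h) (single_sq i) hp
    have e5 : ‖((‖(Ph k p).1‖⁻¹ : ℝ) : ℂ)‖ = ‖(Ph k p).1‖⁻¹ := by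
      rw [Complex.norm_real, Real.norm_of_nonneg (by positivity)]
    have e6 : ‖(chi' n h p : ℂ)‖ = |chi' n h p| := by rw [Complex.norm_real, Real.norm_eq_abs]
    rw [norm_mul, norm_mul, norm_mul, norm_mul, e5, e6]
    calc |chi' n h p| * (‖u (Ph k p)‖ * ‖(φ p : ℂ)‖) ≤
        4 * C / ‖(Ph k p).1‖ * (‖u (Ph k p)‖ * ‖(φ p : ℂ)‖) := by gcongr
      _ = _ := by rw [div_eq_mul_inv]; ring
  have j4 : ∀ n : ℕ, Integrable (fun p => (chi' n h p : ℂ) * (u (Ph k p) * (φ p : ℂ))) := fun n =>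
    Integrable.mono' (i3.norm.const_mul (4 * C)) ((mchi' n).mul (mu.1.mul mφ.1)) (b4 n)
  have key : ∀ n : ℕ, ∫ p, ((chi n p : ℂ) * u (Ph k p)) * (pd i φ p : ℂ) =
      - (∫ p, (chi n p : ℂ) * (fderiv ℝ u (Ph k p) (Ph k h) * (φ p : ℂ))) -
        ∫ p, (chi' n h p : ℂ) * (u (Ph k p) * (φ p : ℂ)) := by
    intro n
    have hj : Integrable (fun p => ((chi n p : ℂ) * fderiv ℝ u (Ph k p) (Ph k h) +
        (chi' n h p : ℂ) * u (Ph k p)) * (φ p : ℂ)) := by
      refine ((j3 n).add (j4 n)).congr (Eventually.of_forall fun p => ?_)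
      show (chi n p : ℂ) * (fderiv ℝ u (Ph k p) (Ph k h) * (φ p : ℂ)) +
        (chi' n h p : ℂ) * (u (Ph k p) * (φ p : ℂ)) = _
      ring
    have h1 := integral_bilinear_hasLineDerivAt_right_eq_neg_left_of_integrable
      (μ := (volume : Measure (Fin (k + 2) → ℝ))) (B := ContinuousLinearMap.mul ℝ ℂ)
      (f := fun p => (chi n p : ℂ) * u (Ph k p))
      (f' := fun p => (chi n p : ℂ) * fderiv ℝ u (Ph k p) (Ph k h) + (chi' n h p : ℂ) * u (Ph k p))
      (g := fun p => (φ p : ℂ)) (g' := fun p => (pd i φ p : ℂ)) (v := h)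
      hj (j1 n) (j2 n) (fun p _ => hder n p) (fun p _ => hderφ p)
    simp only [ContinuousLinearMap.mul_apply'] at h1
    rw [h1, ← neg_add', ← integral_add (j3 n) (j4 n)]
    congr 1
    refine integral_congr_ae (Eventually.of_forall fun p => ?_)
    show ((chi n p : ℂ) * fderiv ℝ u (Ph k p) (Ph k h) + (chi' n h p : ℂ) * u (Ph k p)) * (φ p : ℂ) =
      (chi n p : ℂ) * (fderiv ℝ u (Ph k p) (Ph k h) * (φ p : ℂ)) +
        (chi' n h p : ℂ) * (u (Ph k p) * (φ p : ℂ))
    ring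
  have hbig : ∀ p : Fin (k + 2) → ℝ, (Ph k p).1 ≠ 0 → ∀ᶠ n : ℕ in atTop, 1 < n * ‖(Ph k p).1‖ := by
    intro p hp
    have hr : 0 < ‖(Ph k p).1‖ := norm_pos_iff.2 hp
    have := (tendsto_natCast_atTop_atTop (R := ℝ)).atTop_mul_const hr
    exact this.eventually_gt_atTop 1
  have L1 : Tendsto (fun n : ℕ => ∫ p, ((chi n p : ℂ) * u (Ph k p)) * (pd i φ p : ℂ)) atTop
      (𝓝 (∫ p, u (Ph k p) * (pd i φ p : ℂ))) := by
    refine tendsto_integral_of_dominated_convergence
      (fun p => ‖u (Ph k p) * (pd i φ p : ℂ)‖) (fun n => (j1 n).1) i1.norm ?_ ?_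
    · intro n
      refine Eventually.of_forall fun p => ?_
      rw [norm_mul, norm_mul, norm_mul]
      have := nchi n p
      have h0 : 0 ≤ ‖u (Ph k p)‖ * ‖(pd i φ p : ℂ)‖ := by positivity
      nlinarith
    · filter_upwards [Ph_ae k] with p hp
      refine tendsto_const_nhds.congr' ?_
      filter_upwards [hbig p hp] with n hn
      rw [chi_one hn.le]; simp
  have L2 : Tendsto (fun n : ℕ => ∫ p, (chi n p : ℂ) * (fderiv ℝ u (Ph k p) (Ph k h) * (φ p : ℂ)))
      atTop (𝓝 (∫ p, fderiv ℝ u (Ph k p) (Ph k h) * (φ p : ℂ))) := by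
    refine tendsto_integral_of_dominated_convergence
      (fun p => ‖fderiv ℝ u (Ph k p) (Ph k h) * (φ p : ℂ)‖) (fun n => (j3 n).1) i2.norm b3 ?_
    filter_upwards [Ph_ae k] with p hp
    refine tendsto_const_nhds.congr' ?_
    filter_upwards [hbig p hp] with n hn
    rw [chi_one hn.le]; simp
  have L3 : Tendsto (fun n : ℕ => ∫ p, (chi' n h p : ℂ) * (u (Ph k p) * (φ p : ℂ))) atTop
      (𝓝 (∫ _ : Fin (k + 2) → ℝ, (0 : ℂ))) := by
    refine tendsto_integral_of_dominated_convergence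
      (fun p => 4 * C * ‖((‖(Ph k p).1‖⁻¹ : ℝ) : ℂ) * u (Ph k p) * (φ p : ℂ)‖)
      (fun n => (j4 n).1) (i3.norm.const_mul (4 * C)) b4 ?_
    filter_upwards [Ph_ae k] with p hp
    refine tendsto_const_nhds.congr' ?_
    filter_upwards [hbig p hp] with n hn
    rw [chi'_zero hn]; simp
  rw [integral_zero] at L3
  have L4 := (L2.neg).sub L3
  rw [sub_zero] at L4
  refine tendsto_nhds_unique (L1.congr key) L4

end Pool.Agent.U280.LT
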